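import Pool.Agent.Helper84.GVN.Group

/-!
Group von Neumann algebras: definitions.
-/

open scoped ENNReal

namespace Pool.Agent.Helper84.GVN

/-- The Hilbert space `ℓ²(G)` of square summable complex functions on `G`. -/
def HL (G : Type) : Type := lp (fun _ : G => ℂ) 2

noncomputable instance (G : Type) : NormedAddCommGroup (HL G) :=
  (inferInstance : NormedAddCommGroup (lp (fun _ : G => ℂ) 2))

noncomputable instance (G : Type) : InnerProductSpace ℂ (HL G) :=
  (inferInstance : InnerProductSpace ℂ (lp (fun _ : G => ℂ) 2))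

instance (G : Type) : CompleteSpace (HL G) :=
  (inferInstance : CompleteSpace (lp (fun _ : G => ℂ) 2))

/-- The value of `f ∈ ℓ²(G)` at `x`. -/
def HL.val {G : Type} (f : HL G) : G → ℂ := Subtype.val (p := fun f => f ∈ lp (fun _ : G => ℂ) 2) f

/-- The element of `ℓ²(G)` with given square summable values. -/
def HL.mk {G : Type} (F : G → ℂ) (hF : Memℓp F 2) : HL G :=
  (⟨F, hF⟩ : lp (fun _ : G => ℂ) 2)

theorem HL.val_mk {G : Type} (F : G → ℂ) (hF : Memℓp F 2) : (HL.mk F hF).val = F := rfl

theorem HL.memℓp {G : Type} (f : HL G) : Memℓp f.val 2 := f.2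

open Classical in
/-- The point mass at `g`, as an element of `ℓ²(G)`. -/
noncomputable def HL.single {G : Type} (g : G) : HL G :=
  HL.mk (fun x => if x = g then 1 else 0) (by
    have h : (fun x : G => if x = g then (1 : ℂ) else 0) =
        (lp.single 2 g (1 : ℂ) : lp (fun _ : G => ℂ) 2) := by
      funext x
      rw [lp.single_apply, Pi.single_apply]
    rw [h]
    exact lp.memℓp _)

theorem memℓp_shift {G : Type} [Group G] (g : G) {F : G → ℂ} (hF : Memℓp F 2) :
    Memℓp (fun x => F (g⁻¹ * x)) 2 := by
  have h1 : Summable fun x => ‖F x‖ ^ (2 : ℝ) := by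
    simpa using hF.summable (by norm_num)
  apply memℓp_gen
  have h2 := (Equiv.summable_iff (Equiv.mulLeft g⁻¹)).2 h1
  simpa [Function.comp_def] using h2

/-- The bounded operators on `ℓ²(G)`. -/
def BH (G : Type) : Type := HL G →L[ℂ] HL G

noncomputable instance (G : Type) : CStarAlgebra (BH G) :=
  (inferInstance : CStarAlgebra (HL G →L[ℂ] HL G))

/-- Left translation by `g` on `ℓ²(G)`: `(shift g f)(x) = f(g⁻¹ x)`. -/
noncomputable def shift {G : Type} [Group G] (g : G) : BH G :=
  LinearMap.mkContinuous (E := HL G) (F := HL G)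
    { toFun := fun f => HL.mk (fun x => f.val (g⁻¹ * x)) (memℓp_shift g f.memℓp)
      map_add' := fun _ _ => rfl
      map_smul' := fun _ _ => rfl } 1 (by
    intro f
    rw [one_mul]
    apply le_of_eq
    have e : ∀ f : HL G, ‖f‖ ^ (2 : ℝ) = ∑' x, ‖f.val x‖ ^ (2 : ℝ) := by
      intro f
      have := lp.norm_rpow_eq_tsum (p := 2) (E := fun _ : G => ℂ) (by norm_num) f
      rw [ENNReal.toReal_ofNat] at this
      exact this
    have h : ‖HL.mk (fun x => f.val (g⁻¹ * x)) (memℓp_shift g f.memℓp)‖ ^ (2 : ℝ) =
        ‖f‖ ^ (2 : ℝ) := by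
      rw [e, e]
      exact Equiv.tsum_eq (Equiv.mulLeft g⁻¹) (fun x => ‖f.val x‖ ^ (2 : ℝ))
    exact (Real.rpow_left_inj (norm_nonneg _) (norm_nonneg _) (by norm_num)).1 h)

/-- The group von Neumann algebra `L(G)`: the bounded operators on `ℓ²(G)` that commute with
every operator commuting with all left translations (the double commutant of the left
translations). -/
noncomputable def groupAlg (G : Type) [Group G] : StarSubalgebra ℂ (BH G) :=
  StarSubalgebra.centralizer ℂ (Set.centralizer (Set.range (fun g : G => shift g)))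

/-- `L(G)` as a type. -/
def LH (G : Type) [Group G] : Type := groupAlg G

noncomputable instance (G : Type) [Group G] : Ring (LH G) := SubringClass.toRing (groupAlg G)

noncomputable instance (G : Type) [Group G] : StarRing (LH G) :=
  StarSubalgebra.starRing (groupAlg G)

noncomputable instance (G : Type) [Group G] : Algebra ℂ (LH G) :=
  StarSubalgebra.algebra (groupAlg G)

/-- The operator on `ℓ²(G)` underlying an element of `L(G)`. -/
def LH.op {G : Type} [Group G] (x : LH G) : HL G →L[ℂ] HL G :=
  Subtype.val (p := fun x : BH G => x ∈ groupAlg G) x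

theorem star_shift {G : Type} [Group G] (g : G) :
    star (shift g) = shift g⁻¹ := star_lam g

theorem shift_mem {G : Type} [Group G] (g : G) : shift g ∈ groupAlg G := by
  rw [groupAlg, StarSubalgebra.mem_centralizer_iff]
  intro T hT
  have h1 : ∀ g : G, shift g * T = T * shift g := fun g => hT _ ⟨g, rfl⟩
  refine ⟨(h1 g).symm, ?_⟩
  have h2 := congrArg star (h1 g⁻¹)
  rw [star_mul, star_mul, star_shift, inv_inv] at h2
  exact h2

/-- The canonical unitary `u_g ∈ L(G)`, left translation by `g`. -/
noncomputable def LH.u {G : Type} [Group G] (g : G) : LH G :=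
  Subtype.mk (p := fun x : BH G => x ∈ groupAlg G) (shift g) (shift_mem g)

/-- The Fourier coefficient of `x ∈ L(G)` at `h`. -/
noncomputable def LH.coeff {G : Type} [Group G] (x : LH G) (h : G) : ℂ :=
  (x.op (HL.single 1)).val h

/-- The canonical trace of `L(G)`. -/
noncomputable def LH.tr {G : Type} [Group G] (x : LH G) : ℂ := x.coeff 1

end Pool.Agent.Helper84.GVN
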