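import Pool.Agent.Helper84.GVN.Final
import Pool.Agent.Helper84.GVN.Stmt

/-!
Transport of the local rigidity theorem to the compact definitions.
-/

open scoped ENNReal

namespace Pool.Agent.Helper84.GVN

theorem mem_groupAlg_iff {G : Type} [Group G] {x : L2 G →L[ℂ] L2 G} :
    (show BH G from x) ∈ groupAlg G ↔ x ∈ groupVN G := by
  rw [groupAlg, StarSubalgebra.mem_centralizer_iff, mem_groupVN]
  constructor
  · intro h S hS
    have h1 : (show BH G from S) ∈ Set.centralizer (Set.range (fun g : G => shift g)) := by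
      rintro _ ⟨g, rfl⟩
      exact (hS g).symm
    exact (h _ h1).1
  · intro h T hT
    have h1 : ∀ g : G, shift g * T = T * shift g := fun g => hT _ ⟨g, rfl⟩
    constructor
    · exact h T (fun g => (h1 g).symm)
    · have h2 : ∀ g : G, star T * shift g = shift g * star T := by
        intro g
        have h3 := congrArg star (h1 g⁻¹)
        rw [star_mul, star_mul, star_shift, inv_inv] at h3
        exact h3
      exact h (star T) h2

/-- The two models of `L(G)` agree. -/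
noncomputable def bridge (G : Type) [Group G] : LH G ≃⋆ₐ[ℂ] LG G where
  toFun x := ⟨x.1, mem_groupAlg_iff.1 x.2⟩
  invFun x := ⟨x.1, mem_groupAlg_iff.2 x.2⟩
  left_inv _ := rfl
  right_inv _ := rfl
  map_mul' _ _ := rfl
  map_add' _ _ := rfl
  map_star' _ := rfl
  map_smul' _ _ := rfl

theorem bridge_u {G : Type} [Group G] (g : G) : bridge G (LH.u g) = uu g := rfl

open Classical in
theorem single_eq {G : Type} (g : G) : (HL.single g : HL G) = (dl g : L2 G) := by
  apply Subtype.ext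
  funext x
  change (if x = g then (1 : ℂ) else 0) = (dl g : L2 G) x
  rw [dl_apply]

theorem bridge_coeff {G : Type} [Group G] (x : LH G) (h : G) :
    coef (bridge G x) h = x.coeff h := by
  unfold coef LH.coeff
  rw [single_eq]
  rfl

theorem local_rigidity' {Γ Λ : Type} [Group Γ] [Group Λ] {S : Set Γ} {κ : ℝ}
    (hK : IsKazhdanPair Γ S κ)
    (hicc : ∀ k : Λ, k ≠ 1 → (Set.range fun h : Λ => h * k * h⁻¹).Infinite)
    (θ : LH Γ ≃⋆ₐ[ℂ] LH Λ) (hτ : ∀ x : LH Γ, (θ x).tr = x.tr)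
    (hS : ∀ s ∈ S, ∃ h : Λ, 1 - κ ^ 2 / 320 ≤ ‖(θ (LH.u s)).coeff h‖) :
    ∃ (φ : Γ ≃* Λ) (χ : Γ →* Circle), ∃ w ∈ unitary (LH Λ),
      ∀ g : Γ, θ (LH.u g) = (χ g : ℂ) • (w * LH.u (φ g) * star w) := by
  set θ' : LG Γ ≃⋆ₐ[ℂ] LG Λ := (bridge Γ).symm.trans (θ.trans (bridge Λ)) with hθ'
  have hθ : ∀ x : LH Γ, θ' (bridge Γ x) = bridge Λ (θ x) := fun x => rfl
  obtain ⟨φ, χ, w, hw, h⟩ := local_rigidity (θ := θ') hK hicc (by
    intro x
    have h1 := hτ ((bridge Γ).symm x)
    change (θ ((bridge Γ).symm x)).coeff 1 = ((bridge Γ).symm x).coeff 1 at h1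
    rw [← bridge_coeff, ← bridge_coeff] at h1
    exact h1) (by
    intro s hs
    obtain ⟨h, hh⟩ := hS s hs
    refine ⟨h, ?_⟩
    rw [← bridge_u, hθ, bridge_coeff]
    exact hh)
  refine ⟨φ, χ, (bridge Λ).symm w, ?_, ?_⟩
  · rw [Unitary.mem_iff] at hw ⊢
    exact ⟨congrArg (bridge Λ).symm hw.1, congrArg (bridge Λ).symm hw.2⟩
  · intro g
    apply (bridge Λ).injective
    have h1 := h g
    have h2 : bridge Λ ((χ g : ℂ) • ((bridge Λ).symm w * LH.u (φ g) *
        star ((bridge Λ).symm w))) = (χ g : ℂ) • (w * uu (φ g) * star w) := rfl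
    exact h1.trans h2.symm

end Pool.Agent.Helper84.GVN
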