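import Mathlib

/-!
Hilbert space tools for group von Neumann algebras: the space `L2 I`, permutation unitaries,
coordinate conjugation, slices and amplification of isometries.
-/

open scoped ENNReal ComplexConjugate

namespace Pool.Agent.Helper84.GVN

/-- The Hilbert space of square summable complex functions on `I`. -/
noncomputable abbrev L2 (I : Type*) := lp (fun _ : I => ℂ) 2

section Basic

variable {I J : Type*}

open Classical in
/-- The basis vector at `i`. -/
noncomputable def dl (i : I) : L2 I := lp.single 2 i (1 : ℂ)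

open Classical in
theorem dl_apply (i j : I) : (dl i : L2 I) j = if j = i then 1 else 0 := by
  unfold dl
  rw [lp.single_apply, Pi.single_apply]

@[simp] theorem dl_self (i : I) : (dl i : L2 I) i = 1 := by simp [dl_apply]

theorem inner_dl_left (i : I) (f : L2 I) : inner ℂ (dl i) f = f i := by
  classical
  unfold dl
  rw [lp.inner_single_left]
  simp

theorem inner_dl_right (i : I) (f : L2 I) : inner ℂ f (dl i) = conj (f i) := by
  rw [← inner_conj_symm, inner_dl_left]

@[simp] theorem norm_dl (i : I) : ‖(dl i : L2 I)‖ = 1 := by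
  classical
  unfold dl
  rw [lp.norm_single (by norm_num)]
  simp

theorem l2_ext {f g : L2 I} (h : ∀ i, f i = g i) : f = g := lp.ext (funext h)

theorem hasSum_dl (f : L2 I) : HasSum (fun i => f i • (dl i : L2 I)) f := by
  classical
  have h := lp.hasSum_single (E := fun _ : I => ℂ) (p := 2) (by norm_num) f
  convert! h using 2 with i
  unfold dl
  rw [← lp.single_smul]
  simp

theorem clm_ext {F : Type*} [NormedAddCommGroup F] [NormedSpace ℂ F] {S T : L2 I →L[ℂ] F}
    (h : ∀ i, S (dl i) = T (dl i)) : S = T := by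
  ext f
  have h1 := (hasSum_dl f).mapL S
  have h2 := (hasSum_dl f).mapL T
  have h3 : (fun i => S (f i • (dl i : L2 I))) = fun i => T (f i • (dl i : L2 I)) := by
    funext i
    rw [map_smul, map_smul, h i]
  rw [h3] at h1
  exact h1.unique h2

theorem summable_sq (f : L2 I) : Summable fun i => ‖f i‖ ^ 2 := by
  have h := (lp.memℓp f).summable (by norm_num)
  simpa using h

theorem hasSum_sq (f : L2 I) : HasSum (fun i => ‖f i‖ ^ 2) (‖f‖ ^ 2) := by
  have h := lp.hasSum_norm (p := 2) (by norm_num) f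
  simpa using h

theorem norm_sq_eq (f : L2 I) : ‖f‖ ^ 2 = ∑' i, ‖f i‖ ^ 2 := (hasSum_sq f).tsum_eq.symm

theorem memL2 {f : I → ℂ} (h : Summable fun i => ‖f i‖ ^ 2) : Memℓp f 2 := by
  apply memℓp_gen
  simpa using h

theorem norm_apply_le (f : L2 I) (i : I) : ‖f i‖ ≤ ‖f‖ := lp.norm_apply_le_norm (by norm_num) f i

/-- Permutation of coordinates as a unitary. -/
noncomputable def permU (e : I ≃ J) : L2 I ≃ₗᵢ[ℂ] L2 J where
  toFun f := ⟨fun j => f (e.symm j), memL2 (by
    have := (Equiv.summable_iff e.symm).2 (summable_sq f)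
    exact this)⟩
  invFun f := ⟨fun i => f (e i), memL2 (by
    have := (Equiv.summable_iff e).2 (summable_sq f)
    exact this)⟩
  left_inv f := by
    apply l2_ext
    intro i
    simp
  right_inv f := by
    apply l2_ext
    intro i
    simp
  map_add' f g := by
    apply l2_ext
    intro i
    rfl
  map_smul' c f := by
    apply l2_ext
    intro i
    rfl
  norm_map' f := by
    have h : ‖(⟨fun j => f (e.symm j), memL2 (by
      have := (Equiv.summable_iff e.symm).2 (summable_sq f)
      exact this)⟩ : L2 J)‖ ^ 2 = ‖f‖ ^ 2 := by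
      rw [norm_sq_eq, norm_sq_eq]
      exact Equiv.tsum_eq e.symm (fun i => ‖f i‖ ^ 2)
    exact (sq_eq_sq₀ (norm_nonneg _) (norm_nonneg _)).1 h

@[simp] theorem permU_apply (e : I ≃ J) (f : L2 I) (j : J) : permU e f j = f (e.symm j) := rfl

@[simp] theorem permU_symm_apply (e : I ≃ J) (f : L2 J) (i : I) : (permU e).symm f i = f (e i) :=
  rfl

theorem permU_dl (e : I ≃ J) (i : I) : permU e (dl i) = dl (e i) := by
  apply l2_ext
  intro j
  rw [permU_apply, dl_apply, dl_apply]
  by_cases h : j = e i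
  · subst h; simp
  · have : e.symm j ≠ i := fun h2 => h (by rw [← h2]; simp)
    simp [h, this]

theorem permU_symm (e : I ≃ J) : (permU e).symm = permU e.symm := rfl

theorem permU_trans {K : Type*} (e : I ≃ J) (e' : J ≃ K) (f : L2 I) :
    permU e' (permU e f) = permU (e.trans e') f := by
  apply l2_ext
  intro k
  simp

/-- Coordinatewise conjugation. -/
noncomputable def cj : L2 I → L2 I := fun f => star f

@[simp] theorem cj_apply (f : L2 I) (i : I) : cj f i = conj (f i) := rfl

@[simp] theorem cj_cj (f : L2 I) : cj (cj f) = f := by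
  apply l2_ext; intro i; simp

theorem cj_add (f g : L2 I) : cj (f + g) = cj f + cj g := by
  apply l2_ext; intro i; simp

theorem cj_smul (c : ℂ) (f : L2 I) : cj (c • f) = conj c • cj f := by
  apply l2_ext; intro i; simp

theorem norm_cj (f : L2 I) : ‖cj f‖ = ‖f‖ := norm_star f

@[simp] theorem cj_dl (i : I) : cj (dl i : L2 I) = dl i := by
  classical
  apply l2_ext; intro j
  rw [cj_apply, dl_apply]
  split_ifs <;> simp

/-- Conjugate of a unitary by coordinatewise conjugation. -/
noncomputable def cjU (u : L2 I ≃ₗᵢ[ℂ] L2 I) : L2 I ≃ₗᵢ[ℂ] L2 I where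
  toFun f := cj (u (cj f))
  invFun f := cj (u.symm (cj f))
  left_inv f := by simp
  right_inv f := by simp
  map_add' f g := by simp [cj_add]
  map_smul' c f := by simp [cj_smul]
  norm_map' f := by
    change ‖cj (u (cj f))‖ = ‖f‖
    rw [norm_cj, LinearIsometryEquiv.norm_map, norm_cj]

@[simp] theorem cjU_apply (u : L2 I ≃ₗᵢ[ℂ] L2 I) (f : L2 I) : cjU u f = cj (u (cj f)) := rfl

theorem cjU_mul (u v : L2 I ≃ₗᵢ[ℂ] L2 I) : cjU (u * v) = cjU u * cjU v := by
  ext f : 1
  simp [LinearIsometryEquiv.coe_mul]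

theorem cjU_one : cjU (1 : L2 I ≃ₗᵢ[ℂ] L2 I) = 1 := by
  ext f : 1
  simp

/-- The slice at `j`. -/
noncomputable def sl (j : J) : L2 (I × J) →L[ℂ] L2 I :=
  LinearMap.mkContinuous
    { toFun := fun f => ⟨fun i => f (i, j), memL2 (by
        have h := (summable_sq f).comp_injective (i := fun i : I => (i, j))
          (fun a b hab => by simpa using hab)
        exact h)⟩
      map_add' := fun f g => by
        apply l2_ext; intro i; rfl
      map_smul' := fun c f => by
        apply l2_ext; intro i; rfl } 1 (by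
    intro f
    rw [one_mul]
    apply (sq_le_sq₀ (norm_nonneg _) (norm_nonneg _)).1
    rw [norm_sq_eq, norm_sq_eq]
    have h := (summable_sq f)
    exact Summable.tsum_le_tsum_of_inj (fun i : I => (i, j)) (fun a b hab => by simpa using hab)
      (fun c _ => by positivity) (fun i => le_refl _)
      (h.comp_injective (i := fun i : I => (i, j)) (fun a b hab => by simpa using hab)) h)

@[simp] theorem sl_apply (j : J) (f : L2 (I × J)) (i : I) : sl j f i = f (i, j) := rfl

theorem hasSum_sl (f : L2 (I × J)) : HasSum (fun j => ‖sl j f‖ ^ 2) (‖f‖ ^ 2) := by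
  have h := hasSum_sq f
  have h1 : HasSum (fun p : J × I => ‖f (p.2, p.1)‖ ^ 2) (‖f‖ ^ 2) :=
    (Equiv.hasSum_iff (Equiv.prodComm J I) (f := fun p : I × J => ‖f p‖ ^ 2)).2 h
  exact h1.prod_fiberwise (fun j => hasSum_sq (sl j f))

theorem sl_ext {f g : L2 (I × J)} (h : ∀ j, sl j f = sl j g) : f = g := by
  apply l2_ext
  rintro ⟨i, j⟩
  have := congrArg (fun F : L2 I => F i) (h j)
  simpa using this

theorem summable_of_slices {F : I × J → ℂ} (h1 : ∀ j, Summable fun i => ‖F (i, j)‖ ^ 2)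
    (h2 : Summable fun j => ∑' i, ‖F (i, j)‖ ^ 2) : Summable fun p => ‖F p‖ ^ 2 := by
  have h3 : Summable fun p : J × I => ‖F (p.2, p.1)‖ ^ 2 :=
    (summable_prod_of_nonneg (fun p => by positivity)).2 ⟨h1, h2⟩
  exact (Equiv.summable_iff (Equiv.prodComm J I) (f := fun p : I × J => ‖F p‖ ^ 2)).1 h3

/-- The amplification of an isometry to the first coordinate, as a map. -/
noncomputable def ampFun (u : L2 I →ₗᵢ[ℂ] L2 I) (f : L2 (I × J)) : L2 (I × J) :=
  ⟨fun p => u (sl p.2 f) p.1, memL2 (by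
    apply summable_of_slices
    · intro j
      exact summable_sq (u (sl j f))
    · have h := (hasSum_sl f).summable
      convert! h using 2 with j
      rw [← LinearIsometry.norm_map u, norm_sq_eq])⟩

@[simp] theorem sl_ampFun (u : L2 I →ₗᵢ[ℂ] L2 I) (f : L2 (I × J)) (j : J) :
    sl j (ampFun u f) = u (sl j f) := rfl

/-- The amplification of a unitary to the first coordinate. -/
noncomputable def amp1 (u : L2 I ≃ₗᵢ[ℂ] L2 I) : L2 (I × J) ≃ₗᵢ[ℂ] L2 (I × J) where
  toFun := ampFun u.toLinearIsometry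
  invFun := ampFun u.symm.toLinearIsometry
  left_inv f := by
    apply sl_ext; intro j; simp
  right_inv f := by
    apply sl_ext; intro j; simp
  map_add' f g := by
    apply sl_ext; intro j; simp
  map_smul' c f := by
    apply sl_ext; intro j; simp
  norm_map' f := by
    apply (sq_eq_sq₀ (norm_nonneg _) (norm_nonneg _)).1
    have h1 := hasSum_sl (ampFun u.toLinearIsometry f)
    have h2 := hasSum_sl f
    have h3 : (fun j => ‖sl j (ampFun u.toLinearIsometry f)‖ ^ 2) = fun j => ‖sl j f‖ ^ 2 := by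
      funext j
      simp
    rw [h3] at h1
    exact h1.unique h2

@[simp] theorem sl_amp1 (u : L2 I ≃ₗᵢ[ℂ] L2 I) (f : L2 (I × J)) (j : J) :
    sl j (amp1 u f) = u (sl j f) := rfl

theorem amp1_apply (u : L2 I ≃ₗᵢ[ℂ] L2 I) (f : L2 (I × J)) (p : I × J) :
    amp1 u f p = u (sl p.2 f) p.1 := rfl

theorem amp1_mul (u v : L2 I ≃ₗᵢ[ℂ] L2 I) :
    (amp1 (u * v) : L2 (I × J) ≃ₗᵢ[ℂ] L2 (I × J)) = amp1 u * amp1 v := by
  ext f : 1
  apply sl_ext; intro j
  simp [LinearIsometryEquiv.coe_mul]

theorem amp1_one : (amp1 (1 : L2 I ≃ₗᵢ[ℂ] L2 I) : L2 (I × J) ≃ₗᵢ[ℂ] L2 (I × J)) = 1 := by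
  ext f : 1
  apply sl_ext; intro j
  simp

/-- The amplification of a unitary to the second coordinate. -/
noncomputable def amp2 (u : L2 J ≃ₗᵢ[ℂ] L2 J) : L2 (I × J) ≃ₗᵢ[ℂ] L2 (I × J) :=
  (permU (Equiv.prodComm I J)).trans ((amp1 u).trans (permU (Equiv.prodComm J I)))

theorem amp2_apply (u : L2 J ≃ₗᵢ[ℂ] L2 J) (f : L2 (I × J)) (p : I × J) :
    amp2 u f p = u (sl p.1 (permU (Equiv.prodComm I J) f)) p.2 := rfl

theorem amp2_mul (u v : L2 J ≃ₗᵢ[ℂ] L2 J) :
    (amp2 (u * v) : L2 (I × J) ≃ₗᵢ[ℂ] L2 (I × J)) = amp2 u * amp2 v := by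
  ext f : 1
  simp only [amp2, amp1_mul, LinearIsometryEquiv.coe_mul, LinearIsometryEquiv.trans_apply,
    Function.comp_apply, permU_trans]
  congr 3

theorem amp2_one : (amp2 (1 : L2 J ≃ₗᵢ[ℂ] L2 J) : L2 (I × J) ≃ₗᵢ[ℂ] L2 (I × J)) = 1 := by
  ext f : 1
  simp only [amp2, amp1_one, LinearIsometryEquiv.trans_apply, LinearIsometryEquiv.coe_one, id_eq,
    permU_trans]
  apply l2_ext; intro p
  simp

end Basic

section Slicing

variable {I J : Type*}

/-- The inclusion at `j`. -/
noncomputable def inc (j : J) : L2 I →L[ℂ] L2 (I × J) := ContinuousLinearMap.adjoint (sl j)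

theorem sl_dl_self (i : I) (j : J) : sl j (dl (i, j) : L2 (I × J)) = dl i := by
  classical
  apply l2_ext; intro a
  rw [sl_apply, dl_apply, dl_apply]
  simp

theorem sl_dl_ne (i : I) {j j' : J} (h : j' ≠ j) : sl j' (dl (i, j) : L2 (I × J)) = 0 := by
  classical
  apply l2_ext; intro a
  rw [sl_apply, dl_apply]
  simp [h]

theorem inc_apply_self (j : J) (f : L2 I) (i : I) : inc j f (i, j) = f i := by
  rw [← inner_dl_left, inc, ContinuousLinearMap.adjoint_inner_right, sl_dl_self, inner_dl_left]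

theorem inc_apply_ne {j j' : J} (h : j' ≠ j) (f : L2 I) (i : I) : inc j f (i, j') = 0 := by
  rw [← inner_dl_left, inc, ContinuousLinearMap.adjoint_inner_right, sl_dl_ne i h.symm,
    inner_zero_left]

theorem sl_inc_self (j : J) (f : L2 I) : sl j (inc j f) = f := by
  apply l2_ext; intro i
  rw [sl_apply, inc_apply_self]

theorem sl_inc_ne {j j' : J} (h : j' ≠ j) (f : L2 I) : sl j' (inc j f) = 0 := by
  apply l2_ext; intro i
  rw [sl_apply, inc_apply_ne h]
  rfl

theorem inc_dl (i : I) (j : J) : inc j (dl i) = (dl (i, j) : L2 (I × J)) := by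
  apply sl_ext
  intro j'
  by_cases h : j' = j
  · subst h; rw [sl_inc_self, sl_dl_self]
  · rw [sl_inc_ne h, sl_dl_ne i h]

theorem amp1_inc (u : L2 I ≃ₗᵢ[ℂ] L2 I) (j : J) (f : L2 I) :
    amp1 u (inc j f) = inc j (u f) := by
  apply sl_ext
  intro j'
  rw [sl_amp1]
  by_cases h : j' = j
  · subst h; rw [sl_inc_self, sl_inc_self]
  · rw [sl_inc_ne h, sl_inc_ne h, map_zero]

/-- `u` lies in the bicommutant of the family `F`. -/
def InBic {K : Type*} (F : K → (L2 I ≃ₗᵢ[ℂ] L2 I)) (u : L2 I ≃ₗᵢ[ℂ] L2 I) : Prop :=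
  ∀ S : L2 I →L[ℂ] L2 I, (∀ k f, S (F k f) = F k (S f)) → ∀ f, S (u f) = u (S f)

theorem amp1_comm {K : Type*} {F : K → (L2 I ≃ₗᵢ[ℂ] L2 I)} {u : L2 I ≃ₗᵢ[ℂ] L2 I}
    (hu : InBic F u) (T : L2 (I × J) →L[ℂ] L2 (I × J))
    (hT : ∀ k f, T (amp1 (F k) f) = amp1 (F k) (T f)) (f : L2 (I × J)) :
    T (amp1 u f) = amp1 u (T f) := by
  have key : ∀ (j' : J) (g : L2 I), T (amp1 u (inc j' g)) = amp1 u (T (inc j' g)) := by
    intro j' g
    apply sl_ext
    intro j
    rw [sl_amp1, amp1_inc]
    have h1 := hu ((sl j).comp (T.comp (inc j'))) (by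
      intro k g
      simp only [ContinuousLinearMap.comp_apply]
      rw [← amp1_inc, hT, sl_amp1]) g
    simpa only [ContinuousLinearMap.comp_apply] using h1
  have h2 : T.comp ((amp1 u : L2 (I × J) ≃ₗᵢ[ℂ] L2 (I × J)).toContinuousLinearEquiv :
      L2 (I × J) →L[ℂ] L2 (I × J)) =
      ((amp1 u : L2 (I × J) ≃ₗᵢ[ℂ] L2 (I × J)).toContinuousLinearEquiv :
        L2 (I × J) →L[ℂ] L2 (I × J)).comp T := by
    apply clm_ext
    rintro ⟨i, j⟩
    have := key j (dl i)
    rw [inc_dl] at this
    exact this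
  exact DFunLike.congr_fun h2 f

theorem amp2_comm {K : Type*} {F : K → (L2 J ≃ₗᵢ[ℂ] L2 J)} {u : L2 J ≃ₗᵢ[ℂ] L2 J}
    (hu : InBic F u) (T : L2 (I × J) →L[ℂ] L2 (I × J))
    (hT : ∀ k f, T (amp2 (F k) f) = amp2 (F k) (T f)) (f : L2 (I × J)) :
    T (amp2 u f) = amp2 u (T f) := by
  have h1 := amp1_comm (J := I) hu
    (((permU (Equiv.prodComm I J)).toContinuousLinearEquiv :
      L2 (I × J) →L[ℂ] L2 (J × I)).comp
      (T.comp ((permU (Equiv.prodComm J I)).toContinuousLinearEquiv :
        L2 (J × I) →L[ℂ] L2 (I × J)))) (by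
      intro k f
      have h2 := hT k (permU (Equiv.prodComm J I) f)
      have h3 := congrArg (permU (Equiv.prodComm I J)) h2
      simp only [amp2, LinearIsometryEquiv.trans_apply] at h3
      rw [permU_trans (Equiv.prodComm J I) (Equiv.prodComm I J) f,
        permU_trans (Equiv.prodComm J I) (Equiv.prodComm I J)] at h3
      have h4 : ∀ g : L2 (J × I), permU ((Equiv.prodComm J I).trans (Equiv.prodComm I J)) g = g := by
        intro g
        apply l2_ext; intro p; simp
      rw [h4, h4] at h3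
      exact h3) (permU (Equiv.prodComm I J) f)
  have h3 := congrArg (permU (Equiv.prodComm J I)) h1
  simp only [ContinuousLinearMap.comp_apply] at h3
  change permU (Equiv.prodComm J I) (permU (Equiv.prodComm I J)
    (T (permU (Equiv.prodComm J I) (amp1 u (permU (Equiv.prodComm I J) f))))) =
    permU (Equiv.prodComm J I) (amp1 u (permU (Equiv.prodComm I J)
      (T (permU (Equiv.prodComm J I) (permU (Equiv.prodComm I J) f))))) at h3
  have h4 : ∀ g : L2 (I × J), permU (Equiv.prodComm J I) (permU (Equiv.prodComm I J) g) = g := by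
    intro g
    apply l2_ext; intro p; simp
  rw [h4, h4] at h3
  exact h3

theorem amp12_comm (u : L2 I ≃ₗᵢ[ℂ] L2 I) (w : L2 J ≃ₗᵢ[ℂ] L2 J) (f : L2 (I × J)) :
    amp1 u (amp2 w f) = amp2 w (amp1 u f) := by
  have h2 : ((amp1 u : L2 (I × J) ≃ₗᵢ[ℂ] L2 (I × J)).toContinuousLinearEquiv :
      L2 (I × J) →L[ℂ] L2 (I × J)).comp
      ((amp2 w : L2 (I × J) ≃ₗᵢ[ℂ] L2 (I × J)).toContinuousLinearEquiv :
      L2 (I × J) →L[ℂ] L2 (I × J)) =
      ((amp2 w : L2 (I × J) ≃ₗᵢ[ℂ] L2 (I × J)).toContinuousLinearEquiv :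
      L2 (I × J) →L[ℂ] L2 (I × J)).comp
      ((amp1 u : L2 (I × J) ≃ₗᵢ[ℂ] L2 (I × J)).toContinuousLinearEquiv :
      L2 (I × J) →L[ℂ] L2 (I × J)) := by
    apply clm_ext
    rintro ⟨i, j⟩
    change amp1 u (amp2 w (dl (i, j))) = amp2 w (amp1 u (dl (i, j)))
    have e1 : ∀ b : J, sl b (amp2 w (dl (i, j)) : L2 (I × J)) = (w (dl j)) b • (dl i : L2 I) := by
      intro b
      apply l2_ext; intro a
      rw [sl_apply, amp2_apply]
      change w (sl a (permU (Equiv.prodComm I J) (dl (i, j)))) b = ((w (dl j)) b • (dl i : L2 I)) a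
      rw [permU_dl]
      by_cases h : a = i
      · subst h
        change w (sl a (dl (j, a))) b = _
        rw [sl_dl_self, lp.coeFn_smul, Pi.smul_apply, dl_self, smul_eq_mul, mul_one]
      · change w (sl a (dl (j, i))) b = _
        rw [sl_dl_ne j h, map_zero, lp.coeFn_smul, Pi.smul_apply, dl_apply, if_neg h]
        simp
    have e2 : ∀ a : I, sl a (permU (Equiv.prodComm I J) (amp1 u (dl (i, j)))) =
        (u (dl i)) a • (dl j : L2 J) := by
      intro a
      apply l2_ext; intro b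
      rw [sl_apply, permU_apply]
      change amp1 u (dl (i, j)) (a, b) = _
      rw [amp1_apply]
      by_cases h : b = j
      · subst h
        change u (sl b (dl (i, b))) a = _
        rw [sl_dl_self, lp.coeFn_smul, Pi.smul_apply, dl_self, smul_eq_mul, mul_one]
      · change u (sl b (dl (i, j))) a = _
        rw [sl_dl_ne i h, map_zero, lp.coeFn_smul, Pi.smul_apply, dl_apply, if_neg h]
        simp
    apply l2_ext
    rintro ⟨a, b⟩
    rw [amp1_apply, amp2_apply]
    change u (sl b (amp2 w (dl (i, j)))) a = w (sl a (permU (Equiv.prodComm I J)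
      (amp1 u (dl (i, j))))) b
    rw [e1, e2, map_smul, map_smul, lp.coeFn_smul, lp.coeFn_smul, Pi.smul_apply, Pi.smul_apply,
      smul_eq_mul, smul_eq_mul, mul_comm]
  exact DFunLike.congr_fun h2 f

end Slicing

end Pool.Agent.Helper84.GVN
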