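import Pool.Agent.Helper84.GVN.Group

/-!
The comultiplication of a group von Neumann algebra and the unitary representation
`g ↦ Δ(v_g) · (v_g ⊗ v_g)^*`.
-/

open scoped ENNReal ComplexConjugate

namespace Pool.Agent.Helper84.GVN

section Comul

variable {G : Type*} [Group G]

theorem amp12_dl {I J : Type*} (u : L2 I ≃ₗᵢ[ℂ] L2 I) (w : L2 J ≃ₗᵢ[ℂ] L2 J) (i a : I) (j b : J) :
    amp1 u (amp2 w (dl (i, j))) (a, b) = u (dl i) a * w (dl j) b := by
  have e1 : ∀ b : J, sl b (amp2 w (dl (i, j)) : L2 (I × J)) = (w (dl j)) b • (dl i : L2 I) := by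
    intro b
    apply l2_ext; intro a
    rw [sl_apply, amp2_apply]
    change w (sl a (permU (Equiv.prodComm I J) (dl (i, j)))) b = ((w (dl j)) b • (dl i : L2 I)) a
    rw [permU_dl]
    by_cases h : a = i
    · subst h
      change w (sl a (dl (j, a))) b = _
      rw [sl_dl_self, lp.coeFn_smul, Pi.smul_apply, dl_self, smul_eq_mul, mul_one]
    · change w (sl a (dl (j, i))) b = _
      rw [sl_dl_ne j h, map_zero, lp.coeFn_smul, Pi.smul_apply, dl_apply, if_neg h]
      simp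
  rw [amp1_apply]
  change u (sl b (amp2 w (dl (i, j)))) a = _
  rw [e1, map_smul, lp.coeFn_smul, Pi.smul_apply, smul_eq_mul, mul_comm]

/-- The multiplicative unitary `(a, b) ↦ (a, a⁻¹ b)`. -/
def shear (G : Type*) [Group G] : G × G ≃ G × G where
  toFun p := (p.1, p.1⁻¹ * p.2)
  invFun p := (p.1, p.1 * p.2)
  left_inv p := by simp
  right_inv p := by simp

/-- The comultiplication `Δ(u) = W^* (u ⊗ 1) W`. -/
noncomputable def delta (u : L2 G ≃ₗᵢ[ℂ] L2 G) : L2 (G × G) ≃ₗᵢ[ℂ] L2 (G × G) :=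
  (permU (shear G)).trans ((amp1 u).trans (permU (shear G).symm))

theorem delta_apply (u : L2 G ≃ₗᵢ[ℂ] L2 G) (f : L2 (G × G)) :
    delta u f = permU (shear G).symm (amp1 u (permU (shear G) f)) := rfl

theorem permU_symm_permU {I J : Type*} (e : I ≃ J) (f : L2 I) : permU e.symm (permU e f) = f := by
  apply l2_ext; intro x; simp

theorem permU_permU_symm {I J : Type*} (e : I ≃ J) (f : L2 J) : permU e (permU e.symm f) = f := by
  apply l2_ext; intro x; simp

theorem delta_mul (u v : L2 G ≃ₗᵢ[ℂ] L2 G) : delta (u * v) = delta u * delta v := by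
  ext f : 1
  simp only [delta_apply, LinearIsometryEquiv.coe_mul, Function.comp_apply, amp1_mul,
    permU_permU_symm]

theorem delta_one : delta (1 : L2 G ≃ₗᵢ[ℂ] L2 G) = 1 := by
  ext f : 1
  simp only [delta_apply, amp1_one, LinearIsometryEquiv.coe_one, id_eq, permU_symm_permU]

/-- Right multiplication by `(y ⊗ 1)^*`. -/
noncomputable def R1 (y : L2 G ≃ₗᵢ[ℂ] L2 G) : L2 (G × G) ≃ₗᵢ[ℂ] L2 (G × G) := amp1 (jjU y)

/-- Right multiplication by `(1 ⊗ y)^*`. -/
noncomputable def R2 (y : L2 G ≃ₗᵢ[ℂ] L2 G) : L2 (G × G) ≃ₗᵢ[ℂ] L2 (G × G) := amp2 (jjU y)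

theorem amp1_lam_apply (h : G) (f : L2 (G × G)) (p : G × G) :
    amp1 (lamU h) f p = f (h⁻¹ * p.1, p.2) := rfl

theorem amp2_lam_apply (h : G) (f : L2 (G × G)) (p : G × G) :
    amp2 (lamU h) f p = f (p.1, h⁻¹ * p.2) := rfl

theorem shear_conj (h : G) (f : L2 (G × G)) :
    permU (shear G).symm (amp1 (lamU h) (permU (shear G) f)) =
      amp1 (lamU h) (amp2 (lamU h) f) := by
  apply l2_ext
  rintro ⟨a, b⟩
  rw [amp1_lam_apply, amp2_lam_apply, permU_apply, amp1_lam_apply, permU_apply]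
  simp [shear]

theorem R1_comm_lam {y : L2 G ≃ₗᵢ[ℂ] L2 G} (hy : CommR y) (h : G) (f : L2 (G × G)) :
    R1 y (amp1 (lamU h) (amp2 (lamU h) f)) = amp1 (lamU h) (amp2 (lamU h) (R1 y f)) := by
  unfold R1
  have e1 : ∀ g : L2 (G × G), amp1 (jjU y) (amp1 (lamU h) g) = amp1 (lamU h) (amp1 (jjU y) g) := by
    intro g
    apply sl_ext; intro j
    rw [sl_amp1, sl_amp1, sl_amp1, sl_amp1, hy.jjU_lam]
  rw [e1, amp12_comm]

theorem R2_comm_lam {y : L2 G ≃ₗᵢ[ℂ] L2 G} (hy : CommR y) (h : G) (f : L2 (G × G)) :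
    R2 y (amp1 (lamU h) (amp2 (lamU h) f)) = amp1 (lamU h) (amp2 (lamU h) (R2 y f)) := by
  unfold R2
  have e1 : ∀ g : L2 (G × G), amp2 (jjU y) (amp2 (lamU h) g) = amp2 (lamU h) (amp2 (jjU y) g) := by
    intro g
    have e2 : jjU y * lamU h = lamU h * jjU y := by
      ext f : 1
      exact hy.jjU_lam h f
    have e3 := congrArg (fun u => (amp2 u : L2 (G × G) ≃ₗᵢ[ℂ] L2 (G × G)) g) e2
    simp only [amp2_mul, LinearIsometryEquiv.coe_mul, Function.comp_apply] at e3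
    exact e3
  rw [← amp12_comm, e1]

theorem delta_comm {u : L2 G ≃ₗᵢ[ℂ] L2 G} (hu : InL u) (T : L2 (G × G) ≃ₗᵢ[ℂ] L2 (G × G))
    (hT : ∀ (h : G) f, T (amp1 (lamU h) (amp2 (lamU h) f)) =
      amp1 (lamU h) (amp2 (lamU h) (T f))) (f : L2 (G × G)) :
    T (delta u f) = delta u (T f) := by
  have h1 := amp1_comm (J := G) hu
    ((((permU (shear G).symm).trans (T.trans (permU (shear G)))).toContinuousLinearEquiv :
      L2 (G × G) →L[ℂ] L2 (G × G))) (by
      intro k f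
      change permU (shear G) (T (permU (shear G).symm (amp1 (lamU k) f))) =
        amp1 (lamU k) (permU (shear G) (T (permU (shear G).symm f)))
      have h2 := hT k (permU (shear G).symm f)
      rw [← shear_conj, ← shear_conj, permU_permU_symm] at h2
      rw [h2, permU_permU_symm]) (permU (shear G) f)
  change permU (shear G) (T (permU (shear G).symm (amp1 u (permU (shear G) f)))) =
    amp1 u (permU (shear G) (T (permU (shear G).symm (permU (shear G) f)))) at h1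
  rw [permU_symm_permU] at h1
  rw [delta_apply, delta_apply, ← h1, permU_symm_permU]

/-- The unitary `ξ ↦ Δ(u) ξ (u ⊗ u)^*`. -/
noncomputable def piU (u : L2 G ≃ₗᵢ[ℂ] L2 G) : L2 (G × G) ≃ₗᵢ[ℂ] L2 (G × G) :=
  delta u * (R1 u * R2 u)

theorem piU_one : piU (1 : L2 G ≃ₗᵢ[ℂ] L2 G) = 1 := by
  unfold piU R1 R2
  rw [delta_one, jjU_one, amp1_one, amp2_one]
  simp

theorem piU_mul {u v : L2 G ≃ₗᵢ[ℂ] L2 G} (hu : InL u) (hv : InL v) :
    piU (u * v) = piU u * piU v := by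
  ext f : 1
  unfold piU
  rw [delta_mul]
  have e1 : (R1 (u * v) : L2 (G × G) ≃ₗᵢ[ℂ] L2 (G × G)) = R1 u * R1 v := by
    unfold R1; rw [jjU_mul, amp1_mul]
  have e2 : (R2 (u * v) : L2 (G × G) ≃ₗᵢ[ℂ] L2 (G × G)) = R2 u * R2 v := by
    unfold R2; rw [jjU_mul, amp2_mul]
  rw [e1, e2]
  simp only [LinearIsometryEquiv.coe_mul, Function.comp_apply]
  have c1 : ∀ g, R1 u (delta v g) = delta v (R1 u g) :=
    fun g => delta_comm hv (R1 u) (fun h f => R1_comm_lam hu.commR h f) g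
  have c2 : ∀ g, R2 u (delta v g) = delta v (R2 u g) :=
    fun g => delta_comm hv (R2 u) (fun h f => R2_comm_lam hu.commR h f) g
  have c3 : ∀ g, R1 v (R2 u g) = R2 u (R1 v g) := fun g => amp12_comm _ _ g
  rw [c2, c1, ← c3]

/-- The third order coefficient sum. -/
noncomputable def s3 (c : L2 G) : ℂ := ∑' h, c h * conj (c h) ^ 2

theorem summable_s3 {I : Type*} (c : L2 I) : Summable fun h => c h * conj (c h) ^ 2 := by
  apply Summable.of_norm
  apply Summable.of_nonneg_of_le (fun h => norm_nonneg _) (fun h => ?_)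
    ((summable_sq c).mul_left ‖c‖)
  rw [norm_mul, norm_pow, RCLike.norm_conj]
  exact mul_le_mul_of_nonneg_right (norm_apply_le c h) (by positivity)

theorem piU_coef {u : L2 G ≃ₗᵢ[ℂ] L2 G} (hu : CommR u) : piU u (dl 1) 1 = s3 (cf u) := by
  have hF : ∀ a b : G, (R1 u (R2 u (dl 1))) (a, b) = conj (cf u a⁻¹) * conj (cf u b⁻¹) := by
    intro a b
    have h := amp12_dl (jjU u) (jjU u) (1 : G) a (1 : G) b
    unfold R1 R2
    change amp1 (jjU u) (amp2 (jjU u) (dl ((1 : G), (1 : G)))) (a, b) = _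
    rw [h, jjU_dl_one, jjU_dl_one]
  have h1 : piU u (dl 1) 1 = u (sl 1 (permU (shear G) (R1 u (R2 u (dl 1))))) 1 := by
    unfold piU
    simp only [LinearIsometryEquiv.coe_mul, Function.comp_apply]
    rw [delta_apply, permU_apply]
    change amp1 u (permU (shear G) (R1 u (R2 u (dl 1)))) (shear G (1, 1)) = _
    rw [amp1_apply]
    simp [shear]
  have h2 := hasSum_clm (u.toContinuousLinearEquiv : L2 G →L[ℂ] L2 G)
    (sl 1 (permU (shear G) (R1 u (R2 u (dl 1))))) 1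
  have h3 : (fun c => (sl 1 (permU (shear G) (R1 u (R2 u (dl 1))))) c *
      ((u.toContinuousLinearEquiv : L2 G →L[ℂ] L2 G) (dl c)) 1) =
      (fun h => cf u h * conj (cf u h) ^ 2) ∘ (Equiv.inv G) := by
    funext c
    have e1 : (sl 1 (permU (shear G) (R1 u (R2 u (dl 1))))) c = conj (cf u c⁻¹) ^ 2 := by
      rw [sl_apply, permU_apply]
      have : (shear G).symm (c, 1) = (c, c) := by simp [shear]
      rw [this, hF, sq]
    have e2 : ((u.toContinuousLinearEquiv : L2 G →L[ℂ] L2 G) (dl c)) 1 = cf u c⁻¹ := by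
      have := hu.apply_dl c 1
      rw [one_mul] at this
      exact this
    rw [e1, e2]
    simp only [Function.comp_apply, Equiv.inv_apply]
    ring
  rw [h3] at h2
  have h4 := (Equiv.hasSum_iff (Equiv.inv G)).1 h2
  rw [h1]
  exact h4.tsum_eq.symm

/-- The doubled unitary `u ⊗ ū`. -/
noncomputable def dbl (u : L2 G ≃ₗᵢ[ℂ] L2 G) : L2 (G × G) ≃ₗᵢ[ℂ] L2 (G × G) :=
  amp1 u * amp2 (cjU u)

theorem dbl_one : dbl (1 : L2 G ≃ₗᵢ[ℂ] L2 G) = 1 := by
  unfold dbl
  rw [cjU_one, amp1_one, amp2_one, mul_one]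

theorem dbl_mul (u v : L2 G ≃ₗᵢ[ℂ] L2 G) : dbl (u * v) = dbl u * dbl v := by
  ext f : 1
  unfold dbl
  rw [cjU_mul, amp1_mul, amp2_mul]
  simp only [LinearIsometryEquiv.coe_mul, Function.comp_apply]
  rw [← amp12_comm v]

theorem lamU_prod (h k : G) (f : L2 (G × G)) :
    lamU (h, k) f = amp1 (lamU h) (amp2 (lamU k) f) := by
  apply l2_ext
  rintro ⟨a, b⟩
  rw [amp1_lam_apply, amp2_lam_apply, lamU_apply]
  rfl

theorem InL.dbl {u : L2 G ≃ₗᵢ[ℂ] L2 G} (hu : InL u) : InL (dbl u) := by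
  intro S hS f
  have hu2 : InL (cjU u) := inL_iff.2 (hu.commR.cjU)
  have h1 : ∀ g, S (amp1 u g) = amp1 u (S g) := by
    apply amp1_comm hu S
    intro k g
    have := hS (k, 1) g
    simp only [lamU_prod, lamU_one, amp2_one, LinearIsometryEquiv.coe_one, id_eq] at this
    exact this
  have h2 : ∀ g, S (amp2 (Pool.Agent.Helper84.GVN.cjU u) g) =
      amp2 (Pool.Agent.Helper84.GVN.cjU u) (S g) := by
    apply amp2_comm hu2 S
    intro k g
    have := hS (1, k) g
    simp only [lamU_prod, lamU_one, amp1_one, LinearIsometryEquiv.coe_one, id_eq] at this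
    exact this
  change S (amp1 u (amp2 (Pool.Agent.Helper84.GVN.cjU u) f)) =
    amp1 u (amp2 (Pool.Agent.Helper84.GVN.cjU u) (S f))
  rw [h1, h2]

theorem cf_dbl (u : L2 G ≃ₗᵢ[ℂ] L2 G) (h k : G) : cf (dbl u) (h, k) = cf u h * conj (cf u k) := by
  have h1 := amp12_dl u (cjU u) (1 : G) h (1 : G) k
  change amp1 u (amp2 (cjU u) (dl ((1 : G), (1 : G)))) (h, k) = _
  rw [h1, cjU_apply, cj_dl]
  rfl

theorem s3_dbl (u : L2 G ≃ₗᵢ[ℂ] L2 G) : s3 (cf (dbl u)) = ((‖s3 (cf u)‖ ^ 2 : ℝ) : ℂ) := by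
  unfold s3
  have h1 : (fun p : G × G => cf (dbl u) p * conj (cf (dbl u) p) ^ 2) =
      fun p : G × G => (cf u p.1 * conj (cf u p.1) ^ 2) *
        conj (cf u p.2 * conj (cf u p.2) ^ 2) := by
    funext p
    obtain ⟨h, k⟩ := p
    rw [cf_dbl]
    simp only [map_mul, map_pow, RCLike.conj_conj, Complex.conj_conj]
    ring
  rw [h1]
  have hs := summable_s3 (cf u)
  have hs2 : Summable fun k => conj (cf u k * conj (cf u k) ^ 2) := by
    have := hs.map (starRingEnd ℂ) Complex.continuous_conj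
    exact this
  have h2 := hs.norm.mul_norm hs2.norm
  have h3 := tsum_mul_tsum_of_summable_norm hs.norm hs2.norm
  rw [← h3, ← Complex.conj_tsum, Complex.mul_conj, Complex.normSq_eq_norm_sq]

end Comul

end Pool.Agent.Helper84.GVN
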