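import Pool.Agent.Helper84.GVN.Main

/-!
The factor case: the intertwining vector is a unitary, and the homomorphism is onto.
-/

open scoped ENNReal ComplexConjugate

namespace Pool.Agent.Helper84.GVN

section Parseval

variable {ι H : Type*} [NormedAddCommGroup H] [InnerProductSpace ℂ H] [CompleteSpace H]

theorem mem_closure_of_parseval {w : ι → H} (hw : Orthonormal ℂ w) {x : H}
    (hx : HasSum (fun i => ‖inner ℂ (w i) x‖ ^ 2) (‖x‖ ^ 2)) :
    x ∈ (Submodule.span ℂ (Set.range w)).topologicalClosure := by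
  set K := (Submodule.span ℂ (Set.range w)).topologicalClosure with hK
  have : CompleteSpace K := (Submodule.isClosed_topologicalClosure _).completeSpace_coe
  obtain ⟨p, hp, q, hq, hsum⟩ := K.exists_add_mem_mem_orthogonal x
  have hwK : ∀ i, w i ∈ K := fun i =>
    Submodule.le_topologicalClosure _ (Submodule.subset_span ⟨i, rfl⟩)
  have h1 : (fun i => ‖inner ℂ (w i) x‖ ^ 2) = fun i => ‖inner ℂ (w i) p‖ ^ 2 := by
    funext i
    rw [hsum, inner_add_right, (Submodule.mem_orthogonal _ _).1 hq (w i) (hwK i), add_zero]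
  rw [h1] at hx
  have h2 : ‖x‖ ^ 2 ≤ ‖p‖ ^ 2 := by
    rw [← hx.tsum_eq]
    exact hw.tsum_inner_products_le p
  have h3 : ‖x‖ ^ 2 = ‖p‖ ^ 2 + ‖q‖ ^ 2 := by
    rw [hsum]
    have h4 : inner ℂ p q = 0 := (Submodule.mem_orthogonal _ _).1 hq p hp
    have := norm_add_sq (𝕜 := ℂ) p q
    rw [h4] at this
    simpa using this
  have h5 : ‖q‖ ^ 2 ≤ 0 := by linarith
  have h6 : q = 0 := by
    have : ‖q‖ = 0 := by nlinarith [norm_nonneg q]
    exact norm_eq_zero.1 this
  rw [hsum, h6, add_zero]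
  exact hp

omit [CompleteSpace H] in
/-- The projection on an invariant closed subspace commutes with the unitary. -/
theorem proj_comm {K : Submodule ℂ H} [K.HasOrthogonalProjection] (T : H ≃ₗᵢ[ℂ] H)
    (h1 : ∀ x ∈ K, T x ∈ K) (h2 : ∀ x ∈ K, T.symm x ∈ K) (f : H) :
    K.starProjection (T f) = T (K.starProjection f) := by
  apply Submodule.eq_starProjection_of_mem_orthogonal
  · exact h1 _ (Submodule.starProjection_apply_mem K f)
  · rw [← map_sub, Submodule.mem_orthogonal]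
    intro u hu
    have h3 := (Submodule.mem_orthogonal _ _).1 (Submodule.sub_starProjection_mem_orthogonal
      (K := K) f) (T.symm u) (h2 u hu)
    rw [← LinearIsometryEquiv.inner_map_map T, LinearIsometryEquiv.apply_symm_apply] at h3
    exact h3

end Parseval

section C0

variable {Λ : Type*} [Group Λ]

theorem finite_large (ζ : L2 Λ) (hζ : ‖ζ‖ = 1) {ε : ℝ} (hε : 0 < ε) :
    {k : Λ | ε ≤ ‖inner ℂ ζ (lamU k ζ)‖}.Finite := by
  classical
  set δ : ℝ := min 1 (ε / 4) with hδ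
  have hδ0 : 0 < δ := lt_min one_pos (by positivity)
  have h1 := (hasSum_dl ζ)
  obtain ⟨F, hF⟩ := (Metric.tendsto_nhds.1 h1 δ hδ0).exists
  set ζF : L2 Λ := ∑ i ∈ F, ζ i • dl i with hζF
  rw [dist_eq_norm] at hF
  apply Set.Finite.subset ((F ×ˢ F).image fun p : Λ × Λ => p.1 * p.2⁻¹).finite_toSet
  intro k hk
  by_contra hcon
  have h0 : inner ℂ ζF (lamU k ζF) = 0 := by
    rw [hζF, map_sum, sum_inner]
    apply Finset.sum_eq_zero
    intro i hi
    rw [inner_sum]
    apply Finset.sum_eq_zero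
    intro j hj
    rw [map_smul, lamU_dl, inner_smul_left, inner_smul_right, inner_dl_left, dl_apply]
    have hne : i ≠ k * j := by
      intro h
      apply hcon
      simp only [Finset.coe_image, Set.mem_image]
      exact ⟨(i, j), by simp [hi, hj], by simp [h]⟩
    rw [if_neg hne]
    simp
  set r : L2 Λ := ζ - ζF with hr
  have hrn : ‖r‖ < δ := by
    rw [hr, ← norm_neg, neg_sub]; exact hF
  have e1 : ζ = ζF + r := by rw [hr]; abel
  have e2 : inner ℂ ζ (lamU k ζ) = inner ℂ r (lamU k ζ) + inner ℂ ζF (lamU k r) := by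
    conv_lhs => rw [e1]
    rw [inner_add_left, map_add, inner_add_right, h0, zero_add]
    have : inner ℂ r (lamU k ζ) = inner ℂ r (lamU k ζF + lamU k r) := by
      conv_lhs => rw [e1, map_add]
    rw [this]
    ring
  have e3 : ‖ζF‖ ≤ 2 := by
    have : ζF = ζ - r := by rw [hr]; abel
    rw [this]
    calc ‖ζ - r‖ ≤ ‖ζ‖ + ‖r‖ := norm_sub_le _ _
      _ ≤ 1 + 1 := by rw [hζ]; linarith [min_le_left 1 (ε / 4)]
      _ = 2 := by norm_num
  have e4 : ‖inner ℂ ζ (lamU k ζ)‖ < ε := by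
    rw [e2]
    calc _ ≤ ‖inner ℂ r (lamU k ζ)‖ + ‖inner ℂ ζF (lamU k r)‖ := norm_add_le _ _
      _ ≤ ‖r‖ * ‖lamU k ζ‖ + ‖ζF‖ * ‖lamU k r‖ :=
          add_le_add (norm_inner_le_norm _ _) (norm_inner_le_norm _ _)
      _ = ‖r‖ + ‖ζF‖ * ‖r‖ := by
          rw [LinearIsometryEquiv.norm_map, LinearIsometryEquiv.norm_map, hζ, mul_one]
      _ < ε := by
          have : ‖r‖ < ε / 4 := lt_of_lt_of_le hrn (min_le_right _ _)
          nlinarith [norm_nonneg r, norm_nonneg ζF]
  exact absurd hk (not_le.2 e4)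

end C0

section Factor

variable {Γ Λ : Type} [Group Γ] [Group Λ]

theorem lamU_symm (h : Λ) (f : L2 Λ) : lamU h (lamU h⁻¹ f) = f := by
  apply l2_ext; intro x; simp

theorem inner_lamU_right (h : Λ) (f g : L2 Λ) :
    inner ℂ f (lamU h g) = inner ℂ (lamU h⁻¹ f) g := by
  rw [← LinearIsometryEquiv.inner_map_map (lamU h) (lamU h⁻¹ f) g, lamU_symm]

theorem rhoU_symm (h : Λ) (f : L2 Λ) : rhoU h (rhoU h⁻¹ f) = f := by
  apply l2_ext; intro x; simp

theorem rhoU_symm' (h : Λ) (f : L2 Λ) : rhoU h⁻¹ (rhoU h f) = f := by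
  apply l2_ext; intro x; simp

theorem inner_rhoU_right (h : Λ) (f g : L2 Λ) :
    inner ℂ f (rhoU h g) = inner ℂ (rhoU h⁻¹ f) g := by
  rw [← LinearIsometryEquiv.inner_map_map (rhoU h) (rhoU h⁻¹ f) g, rhoU_symm]

/-- The vector state of the intertwining vector is a trace. -/
theorem tracial (v : Γ →* (L2 Λ ≃ₗᵢ[ℂ] L2 Λ)) (hv : ∀ g, InL (v g))
    (hgen : ∀ k, InBic (fun g => v g) (lamU k)) (φ : Γ →* Λ) (χ : Γ →* Circle) (ζ : L2 Λ)
    (hζ : ∀ g, v g (rhoU (φ g) ζ) = (χ g : ℂ) • ζ) (h k : Λ) :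
    inner ℂ ζ (lamU h (lamU k ζ)) = inner ℂ ζ (lamU k (lamU h ζ)) := by
  set Ξ : L2 (Λ × Bool) := inc true (lamU k ζ) + inc false ζ with hΞ
  set A : Set (L2 (Λ × Bool)) := Set.range fun g : Γ => amp1 (v g) Ξ with hA
  set K := (Submodule.span ℂ A).topologicalClosure with hK
  have : CompleteSpace K := (Submodule.isClosed_topologicalClosure _).completeSpace_coe
  -- invariance of `K`
  have hspan : ∀ g : Γ, ∀ x ∈ Submodule.span ℂ A, amp1 (v g) x ∈ Submodule.span ℂ A := by
    intro g x hx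
    induction hx using Submodule.span_induction with
    | mem x hx =>
      obtain ⟨g', rfl⟩ := hx
      apply Submodule.subset_span
      refine ⟨g * g', ?_⟩
      simp only [map_mul, amp1_mul, LinearIsometryEquiv.coe_mul, Function.comp_apply]
    | zero => rw [map_zero]; exact Submodule.zero_mem _
    | add x y _ _ hx hy => rw [map_add]; exact Submodule.add_mem _ hx hy
    | smul c x _ hx => rw [map_smul]; exact Submodule.smul_mem _ _ hx
  have hKinv : ∀ g : Γ, ∀ x ∈ K, amp1 (v g) x ∈ K := by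
    intro g x hx
    have h1 : Set.MapsTo (amp1 (v g)) (Submodule.span ℂ A : Set (L2 (Λ × Bool)))
        (Submodule.span ℂ A : Set (L2 (Λ × Bool))) := fun x hx => hspan g x hx
    exact h1.closure (amp1 (v g)).continuous hx
  have hsymm : ∀ (g : Γ) (x : L2 (Λ × Bool)), (amp1 (v g)).symm x = amp1 (v g⁻¹) x := by
    intro g x
    rw [LinearIsometryEquiv.symm_apply_eq]
    change x = (amp1 (v g) * amp1 (v g⁻¹) : L2 (Λ × Bool) ≃ₗᵢ[ℂ] L2 (Λ × Bool)) x
    rw [← amp1_mul, ← map_mul, mul_inv_cancel, map_one, amp1_one]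
    rfl
  have hP : ∀ (g : Γ) (f : L2 (Λ × Bool)),
      K.starProjection (amp1 (v g) f) = amp1 (v g) (K.starProjection f) := by
    intro g f
    apply proj_comm (amp1 (v g)) (hKinv g)
    intro x hx
    rw [hsymm]
    exact hKinv g⁻¹ x hx
  have hP2 := amp1_comm (hgen h) K.starProjection (fun g f => hP g f) Ξ
  have hΞK : Ξ ∈ K := by
    apply Submodule.le_topologicalClosure
    apply Submodule.subset_span
    refine ⟨1, ?_⟩
    simp only [map_one, amp1_one]
    rfl
  have hΞ2 : amp1 (lamU h) Ξ ∈ K := by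
    rw [← Submodule.starProjection_eq_self_iff, hP2, Submodule.starProjection_eq_self_iff.2 hΞK]
  -- the functional vanishes on `K`
  have hvinv : ∀ g, v g ζ = (χ g : ℂ) • rhoU (φ g)⁻¹ ζ := by
    intro g
    have h1 := hζ g
    rw [(hv g).commR] at h1
    have h2 := congrArg (rhoU (φ g)⁻¹) h1
    rw [rhoU_symm', map_smul] at h2
    exact h2
  have hzero : ∀ x ∈ K, inner ℂ ζ (sl true x) = inner ℂ (lamU k⁻¹ ζ) (sl false x) := by
    have hcl : IsClosed {x : L2 (Λ × Bool) | inner ℂ ζ (sl true x) =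
        inner ℂ (lamU k⁻¹ ζ) (sl false x)} :=
      isClosed_eq (continuous_const.inner (sl true).continuous)
        (continuous_const.inner (sl false).continuous)
    have hsub : (Submodule.span ℂ A : Set (L2 (Λ × Bool))) ⊆
        {x : L2 (Λ × Bool) | inner ℂ ζ (sl true x) = inner ℂ (lamU k⁻¹ ζ) (sl false x)} := by
      intro x hx
      induction hx using Submodule.span_induction with
      | mem x hx =>
        obtain ⟨g, rfl⟩ := hx
        have s1 : sl true Ξ = lamU k ζ := by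
          rw [hΞ, map_add, sl_inc_self, sl_inc_ne (by decide), add_zero]
        have s2 : sl false Ξ = ζ := by
          rw [hΞ, map_add, sl_inc_self, sl_inc_ne (by decide), zero_add]
        change inner ℂ ζ (sl true (amp1 (v g) Ξ)) = inner ℂ (lamU k⁻¹ ζ) (sl false (amp1 (v g) Ξ))
        rw [sl_amp1, sl_amp1, s1, s2]
        -- `⟨ζ, v_g λ_k ζ⟩ = ⟨ζ, λ_k v_g ζ⟩`
        have hχ : (conj (χ g : ℂ)) * (χ g : ℂ) = 1 := by
          rw [mul_comm, Complex.mul_conj, Complex.normSq_eq_norm_sq, Circle.norm_coe]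
          simp
        have e1 : inner ℂ ζ (v g (lamU k ζ)) = (χ g : ℂ) * inner ℂ (rhoU (φ g) ζ) (lamU k ζ) := by
          have e2 : ζ = v g (conj (χ g : ℂ) • rhoU (φ g) ζ) := by
            rw [map_smul, hζ, smul_smul, hχ, one_smul]
          conv_lhs => rw [e2]
          rw [LinearIsometryEquiv.inner_map_map, inner_smul_left, Complex.conj_conj]
          congr 2
          rw [map_smul, hζ, smul_smul, hχ, one_smul]
        rw [e1, hvinv, inner_smul_right, ← inner_lamU_right, lam_rho, inner_rhoU_right, inv_inv]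
      | zero => simp
      | add x y _ _ hx hy =>
        simp only [Set.mem_ofPred_eq] at hx hy ⊢
        rw [map_add, map_add, inner_add_right, inner_add_right, hx, hy]
      | smul c x _ hx =>
        simp only [Set.mem_ofPred_eq] at hx ⊢
        rw [map_smul, map_smul, inner_smul_right, inner_smul_right, hx]
    intro x hx
    exact closure_minimal hsub hcl hx
  have hfin := hzero _ hΞ2
  have s1 : sl true Ξ = lamU k ζ := by
    rw [hΞ, map_add, sl_inc_self, sl_inc_ne (by decide), add_zero]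
  have s2 : sl false Ξ = ζ := by
    rw [hΞ, map_add, sl_inc_self, sl_inc_ne (by decide), zero_add]
  rw [sl_amp1, sl_amp1, s1, s2, ← inner_lamU_right] at hfin
  exact hfin

end Factor

section Unitary

variable {Γ Λ : Type} [Group Γ] [Group Λ]

/-- In the icc case the left translates of the intertwining vector are orthonormal. -/
theorem orth_left (ζ : L2 Λ) (hζ : ‖ζ‖ = 1)
    (htr : ∀ h k : Λ, inner ℂ ζ (lamU h (lamU k ζ)) = inner ℂ ζ (lamU k (lamU h ζ)))
    (hicc : ∀ k : Λ, k ≠ 1 → (Set.range fun h : Λ => h * k * h⁻¹).Infinite) (k : Λ) (hk : k ≠ 1) :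
    inner ℂ ζ (lamU k ζ) = 0 := by
  by_contra hne
  have hpos : 0 < ‖inner ℂ ζ (lamU k ζ)‖ := norm_pos_iff.2 hne
  have hcl : ∀ h : Λ, inner ℂ ζ (lamU (h * k * h⁻¹) ζ) = inner ℂ ζ (lamU k ζ) := by
    intro h
    have e1 : lamU (h * k * h⁻¹) ζ = lamU (h * k) (lamU h⁻¹ ζ) := by
      rw [lamU_mul]; rfl
    have e2 : lamU h⁻¹ (lamU (h * k) ζ) = lamU k ζ := by
      apply l2_ext; intro x; simp [mul_assoc]
    rw [e1, htr, e2]
  apply hicc k hk
  apply (finite_large ζ hζ hpos).subset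
  rintro _ ⟨h, rfl⟩
  change ‖inner ℂ ζ (lamU k ζ)‖ ≤ ‖inner ℂ ζ (lamU (h * k * h⁻¹) ζ)‖
  rw [hcl]

theorem orthonormal_lam (ζ : L2 Λ) (hζ : ‖ζ‖ = 1)
    (h0 : ∀ k : Λ, k ≠ 1 → inner ℂ ζ (lamU k ζ) = 0) :
    Orthonormal ℂ (fun k : Λ => lamU k ζ) := by
  constructor
  · intro k; rw [LinearIsometryEquiv.norm_map, hζ]
  · intro h k hne
    change inner ℂ (lamU h ζ) (lamU k ζ) = 0
    have e1 : inner ℂ (lamU h ζ) (lamU k ζ) = inner ℂ ζ (lamU (h⁻¹ * k) ζ) := by
      rw [lamU_mul]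
      simp only [LinearIsometryEquiv.coe_mul, Function.comp_apply]
      rw [inner_lamU_right h⁻¹ ζ, inv_inv]
    rw [e1]
    apply h0
    intro h1
    exact hne (inv_mul_eq_one.1 h1)

theorem orthonormal_rho (ζ : L2 Λ) (hζ : ‖ζ‖ = 1)
    (h0 : ∀ k : Λ, k ≠ 1 → inner ℂ (rhoU k ζ) ζ = 0) :
    Orthonormal ℂ (fun k : Λ => rhoU k⁻¹ ζ) := by
  constructor
  · intro k; rw [LinearIsometryEquiv.norm_map, hζ]
  · intro h k hne
    change inner ℂ (rhoU h⁻¹ ζ) (rhoU k⁻¹ ζ) = 0
    have e1 : inner ℂ (rhoU h⁻¹ ζ) (rhoU k⁻¹ ζ) = inner ℂ (rhoU (k * h⁻¹) ζ) ζ := by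
      rw [inner_rhoU_right, inv_inv]
      have : rhoU k (rhoU h⁻¹ ζ) = rhoU (k * h⁻¹) ζ := by rw [rhoU_mul]; rfl
      rw [this]
    rw [e1]
    apply h0
    intro h1
    exact hne (mul_inv_eq_one.1 h1).symm

/-- Totality of the left translates. -/
theorem total_lam (ζ : L2 Λ) (hζ : ‖ζ‖ = 1) (ho : Orthonormal ℂ (fun k : Λ => lamU k ζ)) :
    ⊤ ≤ (Submodule.span ℂ (Set.range fun k : Λ => lamU k ζ)).topologicalClosure := by
  have h1 : ∀ j : Λ, (dl j : L2 Λ) ∈
      (Submodule.span ℂ (Set.range fun k : Λ => lamU k ζ)).topologicalClosure := by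
    intro j
    apply mem_closure_of_parseval ho
    rw [norm_dl]
    have e1 : (fun k : Λ => ‖inner ℂ (lamU k ζ) (dl j)‖ ^ 2) =
        (fun x => ‖ζ x‖ ^ 2) ∘ ((Equiv.inv Λ).trans (Equiv.mulRight j)) := by
      funext k
      rw [inner_dl_right, RCLike.norm_conj, lamU_apply]
      rfl
    rw [e1]
    have := hasSum_sq ζ
    rw [hζ] at this
    exact (Equiv.hasSum_iff ((Equiv.inv Λ).trans (Equiv.mulRight j))).2 this
  intro f _
  have h2 := hasSum_dl f
  apply (Submodule.isClosed_topologicalClosure _).mem_of_tendsto h2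
  filter_upwards with s
  exact Submodule.sum_mem _ fun i _ => Submodule.smul_mem _ _ (h1 i)

theorem total_rho (ζ : L2 Λ) (hζ : ‖ζ‖ = 1) (ho : Orthonormal ℂ (fun k : Λ => rhoU k⁻¹ ζ)) :
    ⊤ ≤ (Submodule.span ℂ (Set.range fun k : Λ => rhoU k⁻¹ ζ)).topologicalClosure := by
  have h1 : ∀ j : Λ, (dl j : L2 Λ) ∈
      (Submodule.span ℂ (Set.range fun k : Λ => rhoU k⁻¹ ζ)).topologicalClosure := by
    intro j
    apply mem_closure_of_parseval ho
    rw [norm_dl]
    have e1 : (fun k : Λ => ‖inner ℂ (rhoU k⁻¹ ζ) (dl j)‖ ^ 2) =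
        (fun x => ‖ζ x‖ ^ 2) ∘ ((Equiv.inv Λ).trans (Equiv.mulLeft j)) := by
      funext k
      rw [inner_dl_right, RCLike.norm_conj, rhoU_apply]
      rfl
    rw [e1]
    have := hasSum_sq ζ
    rw [hζ] at this
    exact (Equiv.hasSum_iff ((Equiv.inv Λ).trans (Equiv.mulLeft j))).2 this
  intro f _
  have h2 := hasSum_dl f
  apply (Submodule.isClosed_topologicalClosure _).mem_of_tendsto h2
  filter_upwards with s
  exact Submodule.sum_mem _ fun i _ => Submodule.smul_mem _ _ (h1 i)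

/-- If the left translates form an orthonormal basis, the right translates are orthogonal. -/
theorem orth_right (ζ : L2 Λ) (hζ : ‖ζ‖ = 1) (ho : Orthonormal ℂ (fun k : Λ => lamU k ζ))
    (m : Λ) (hm : m ≠ 1) : inner ℂ (rhoU m ζ) ζ = 0 := by
  classical
  let b := HilbertBasis.mk ho (total_lam ζ hζ ho)
  have h1 := b.hasSum_inner_mul_inner (dl 1) (dl m)
  have e0 : inner ℂ (dl 1 : L2 Λ) (dl m) = 0 := by
    rw [inner_dl_left, dl_apply, if_neg (Ne.symm hm)]
  rw [e0] at h1
  have e1 : (fun i => inner ℂ (dl 1 : L2 Λ) (b i) * inner ℂ (b i) (dl m)) =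
      (fun x => conj (rhoU m ζ x) * ζ x) ∘ (Equiv.inv Λ) := by
    funext k
    have : b k = lamU k ζ := by
      change (HilbertBasis.mk ho (total_lam ζ hζ ho)) k = _
      rw [HilbertBasis.coe_mk]
    rw [this, inner_dl_left, inner_dl_right, lamU_apply, lamU_apply]
    simp only [Function.comp_apply, Equiv.inv_apply, rhoU_apply, mul_one]
    rw [mul_comm]
  rw [e1] at h1
  have h2 := (Equiv.hasSum_iff (Equiv.inv Λ)).1 h1
  have h3 := lp.hasSum_inner (𝕜 := ℂ) (rhoU m ζ) ζ
  have e2 : (fun x => inner ℂ (rhoU m ζ x) (ζ x)) = fun x => conj (rhoU m ζ x) * ζ x := by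
    funext x
    rw [RCLike.inner_apply, mul_comm]
  rw [e2] at h3
  exact h3.unique h2

/-- The unitary of left multiplication by the intertwining vector. -/
theorem exists_unitary (ζ : L2 Λ) (hζ : ‖ζ‖ = 1)
    (h0 : ∀ k : Λ, k ≠ 1 → inner ℂ ζ (lamU k ζ) = 0) :
    ∃ w : L2 Λ ≃ₗᵢ[ℂ] L2 Λ, InL w ∧ ∀ k, w (dl k) = rhoU k⁻¹ ζ := by
  classical
  have ho := orthonormal_lam ζ hζ h0
  have hr := orthonormal_rho ζ hζ (orth_right ζ hζ ho)
  let b := HilbertBasis.mk hr (total_rho ζ hζ hr)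
  have hw : ∀ k, b.repr.symm (dl k) = rhoU k⁻¹ ζ := by
    intro k
    have h1 := b.repr_symm_single k
    have h2 : b k = rhoU k⁻¹ ζ := by
      change (HilbertBasis.mk hr (total_rho ζ hζ hr)) k = _
      rw [HilbertBasis.coe_mk]
    rw [← h2, ← h1]
    unfold dl
    congr!
  refine ⟨b.repr.symm, ?_, hw⟩
  apply CommR.inL
  intro h f
  have h2 : ((b.repr.symm.toContinuousLinearEquiv : L2 Λ →L[ℂ] L2 Λ)).comp
      ((rhoU h).toContinuousLinearEquiv : L2 Λ →L[ℂ] L2 Λ) =
      ((rhoU h).toContinuousLinearEquiv : L2 Λ →L[ℂ] L2 Λ).comp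
      (b.repr.symm.toContinuousLinearEquiv : L2 Λ →L[ℂ] L2 Λ) := by
    apply clm_ext
    intro k
    change b.repr.symm (rhoU h (dl k)) = rhoU h (b.repr.symm (dl k))
    rw [rhoU_dl, hw, hw]
    apply l2_ext; intro x; simp [mul_assoc]
  exact DFunLike.congr_fun h2 f

end Unitary

section Core

variable {Γ Λ : Type} [Group Γ] [Group Λ]

open Classical in
/-- The coordinate projection on a set. -/
noncomputable def cproj (A : Set Λ) : L2 Λ →L[ℂ] L2 Λ :=
  LinearMap.mkContinuous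
    { toFun := fun f => ⟨fun x => if x ∈ A then f x else 0, memL2 (by
        apply Summable.of_nonneg_of_le (fun x => by positivity) (fun x => ?_) (summable_sq f)
        split_ifs
        · exact le_refl _
        · simp)⟩
      map_add' := fun f g => by
        apply l2_ext; intro x
        change (if x ∈ A then (f + g : L2 Λ) x else 0) =
          (if x ∈ A then f x else 0) + (if x ∈ A then g x else 0)
        split_ifs
        · rfl
        · simp
      map_smul' := fun c f => by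
        apply l2_ext; intro x
        change (if x ∈ A then (c • f : L2 Λ) x else 0) = c • (if x ∈ A then f x else 0)
        split_ifs
        · rfl
        · simp } 1 (by
    intro f
    rw [one_mul]
    apply (sq_le_sq₀ (norm_nonneg _) (norm_nonneg _)).1
    rw [norm_sq_eq, norm_sq_eq]
    have hle : ∀ x, ‖(if x ∈ A then f x else 0 : ℂ)‖ ^ 2 ≤ ‖f x‖ ^ 2 := by
      intro x
      split_ifs
      · exact le_refl _
      · simp
    exact Summable.tsum_le_tsum hle
      (Summable.of_nonneg_of_le (fun x => by positivity) hle (summable_sq f)) (summable_sq f))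

open Classical in
omit [Group Λ] in
theorem cproj_apply (A : Set Λ) (f : L2 Λ) (x : Λ) :
    cproj A f x = if x ∈ A then f x else 0 := rfl

/-- The core theorem in terms of homomorphisms into the unitary group of `L(Λ)`. -/
theorem core {S : Set Γ} {κ : ℝ} (hK : IsKazhdanPair Γ S κ)
    (v : Γ →* (L2 Λ ≃ₗᵢ[ℂ] L2 Λ)) (hv : ∀ g, InL (v g))
    (hS : ∀ s ∈ S, ∃ h, 1 - κ ^ 2 / 320 ≤ ‖cf (v s) h‖)
    (htr : ∀ g, g ≠ 1 → cf (v g) 1 = 0)
    (hgen : ∀ k, InBic (fun g => v g) (lamU k))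
    (hicc : ∀ k : Λ, k ≠ 1 → (Set.range fun h : Λ => h * k * h⁻¹).Infinite) :
    ∃ (φ : Γ ≃* Λ) (χ : Γ →* Circle) (w : L2 Λ ≃ₗᵢ[ℂ] L2 Λ), InL w ∧
      ∀ g f, v g (w f) = (χ g : ℂ) • w (lamU (φ g) f) := by
  obtain ⟨φ, χ, ζ, hζ, hφ, hint⟩ := exists_intertwiner hK v hv hS
  have htrace := tracial v hv hgen φ χ ζ hint
  have h0 := orth_left ζ hζ htrace hicc
  obtain ⟨w, hw, hwd⟩ := exists_unitary ζ hζ h0
  have hvinv : ∀ g, v g ζ = (χ g : ℂ) • rhoU (φ g)⁻¹ ζ := by
    intro g
    have h1 := hint g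
    rw [(hv g).commR] at h1
    have h2 := congrArg (rhoU (φ g)⁻¹) h1
    rw [rhoU_symm', map_smul] at h2
    exact h2
  have hform : ∀ g f, v g (w f) = (χ g : ℂ) • w (lamU (φ g) f) := by
    intro g f
    have h2 : ((v g).toContinuousLinearEquiv : L2 Λ →L[ℂ] L2 Λ).comp
        (w.toContinuousLinearEquiv : L2 Λ →L[ℂ] L2 Λ) =
        (χ g : ℂ) • (w.toContinuousLinearEquiv : L2 Λ →L[ℂ] L2 Λ).comp
        ((lamU (φ g)).toContinuousLinearEquiv : L2 Λ →L[ℂ] L2 Λ) := by
      apply clm_ext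
      intro k
      change v g (w (dl k)) = (χ g : ℂ) • w (lamU (φ g) (dl k))
      rw [hwd, lamU_dl, hwd, (hv g).commR, hvinv, map_smul]
      congr 1
      apply l2_ext; intro x; simp [mul_assoc]
    exact DFunLike.congr_fun h2 f
  have hinj : Function.Injective φ := by
    rw [injective_iff_map_eq_one]
    intro g hg
    by_contra hne
    have h1 := hφ g
    rw [hg, htr g hne, norm_zero] at h1
    norm_num at h1
  have hsurj : Function.Surjective φ := by
    set Q : L2 Λ →L[ℂ] L2 Λ := cproj (Set.range φ) with hQ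
    have hQl : ∀ (g : Γ) f, Q (lamU (φ g) f) = lamU (φ g) (Q f) := by
      intro g f
      apply l2_ext; intro x
      rw [hQ, cproj_apply, lamU_apply, lamU_apply, cproj_apply]
      have hiff : x ∈ Set.range φ ↔ (φ g)⁻¹ * x ∈ Set.range φ := by
        constructor
        · rintro ⟨y, rfl⟩
          exact ⟨g⁻¹ * y, by simp⟩
        · rintro ⟨y, hy⟩
          exact ⟨g * y, by rw [map_mul, hy]; simp⟩
      by_cases hx : x ∈ Set.range φ
      · rw [if_pos hx, if_pos (hiff.1 hx)]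
      · rw [if_neg hx, if_neg (fun h => hx (hiff.2 h))]
    set T : L2 Λ →L[ℂ] L2 Λ := (w.toContinuousLinearEquiv : L2 Λ →L[ℂ] L2 Λ).comp
      (Q.comp (w.symm.toContinuousLinearEquiv : L2 Λ →L[ℂ] L2 Λ)) with hT
    have hTa : ∀ f, T f = w (Q (w.symm f)) := fun f => rfl
    have hTv : ∀ (g : Γ) f, T (v g f) = v g (T f) := by
      intro g f
      have e1 : v g f = (χ g : ℂ) • w (lamU (φ g) (w.symm f)) := by
        have := hform g (w.symm f)
        rwa [LinearIsometryEquiv.apply_symm_apply] at this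
      rw [hTa, hTa, hform, e1, map_smul, LinearIsometryEquiv.symm_apply_apply, map_smul, map_smul,
        hQl]
    have hTl : ∀ (k : Λ) f, T (lamU k f) = lamU k (T f) := fun k => hgen k T hTv
    have hTw := hw T hTl
    have hQT : ∀ f, Q f = T f := by
      intro f
      have h1 := hTw f
      rw [hTa (w f), LinearIsometryEquiv.symm_apply_apply] at h1
      exact w.injective h1
    intro k
    have h1 := hTl k (dl 1)
    rw [← hQT, ← hQT, lamU_dl, mul_one] at h1
    have h2 : Q (dl 1 : L2 Λ) = dl 1 := by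
      apply l2_ext; intro x
      rw [hQ, cproj_apply]
      by_cases hx : x ∈ Set.range φ
      · rw [if_pos hx]
      · rw [if_neg hx, dl_apply, if_neg]
        rintro rfl
        exact hx ⟨1, map_one φ⟩
    rw [h2, lamU_dl, mul_one] at h1
    have h3 := congrArg (fun f : L2 Λ => f k) h1
    simp only [hQ, cproj_apply, dl_self] at h3
    by_contra hcon
    have : k ∉ Set.range φ := fun ⟨y, hy⟩ => hcon ⟨y, hy⟩
    rw [if_neg this] at h3
    exact zero_ne_one h3
  exact ⟨MulEquiv.ofBijective φ ⟨hinj, hsurj⟩, χ, w, hw, hform⟩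

end Core

end Pool.Agent.Helper84.GVN
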