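import Pool.Agent.Helper84.GVN.Factor

/-!
Local rigidity of trace preserving isomorphisms of group von Neumann algebras.
-/

open scoped ENNReal ComplexConjugate

namespace Pool.Agent.Helper84.GVN

section Elements

variable {G : Type} [Group G]

variable (G) in
/-- The elements of the group von Neumann algebra, as a star algebra. -/
abbrev LG : Type := (groupVN G).toStarSubalgebra

/-- The canonical unitary `u_g` of `L(G)`. -/
noncomputable def uu (g : G) : LG G := ⟨lam g, lam_mem g⟩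

/-- The Fourier coefficient of `x ∈ L(G)` at `h`: `x = ∑ coef x h • u_h`. -/
noncomputable def coef (x : LG G) (h : G) : ℂ := ((x : L2 G →L[ℂ] L2 G) (dl 1)) h

/-- The canonical trace of `L(G)`. -/
noncomputable def tr (x : LG G) : ℂ := coef x 1

theorem lam_mul (g h : G) : lam (g * h) = lam g * lam h := by
  ext f : 1
  change lamU (g * h) f = lamU g (lamU h f)
  rw [lamU_mul]
  rfl

theorem lam_one : lam (1 : G) = 1 := by
  ext f : 1
  change lamU 1 f = f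
  rw [lamU_one]
  rfl

theorem uu_mul (g h : G) : uu (g * h) = uu g * uu h := Subtype.ext (lam_mul g h)

theorem uu_one : uu (1 : G) = 1 := Subtype.ext lam_one

theorem star_uu (g : G) : star (uu g) = uu g⁻¹ := Subtype.ext (star_lam g)

theorem tr_star_mul (x y : LG G) :
    tr (star x * y) = inner ℂ ((x : L2 G →L[ℂ] L2 G) (dl 1)) ((y : L2 G →L[ℂ] L2 G) (dl 1)) := by
  unfold tr coef
  rw [← inner_dl_left]
  change inner ℂ (dl 1) ((star (x : L2 G →L[ℂ] L2 G)) ((y : L2 G →L[ℂ] L2 G) (dl 1))) = _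
  rw [ContinuousLinearMap.star_eq_adjoint, ContinuousLinearMap.adjoint_inner_right]

theorem uu_dl (g : G) : (uu g : L2 G →L[ℂ] L2 G) (dl 1) = dl g := by
  change lamU g (dl 1) = dl g
  rw [lamU_dl, mul_one]

end Elements

section Theta

variable {Γ Λ : Type} [Group Γ] [Group Λ] (θ : LG Γ ≃⋆ₐ[ℂ] LG Λ)

theorem theta_star (x : LG Γ) : θ (star x) = star (θ x) := θ.map_star' x

/-- The unitaries `θ(u_g)` as isometric equivalences. -/
noncomputable def vv : Γ →* (L2 Λ ≃ₗᵢ[ℂ] L2 Λ) where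
  toFun g := Unitary.linearIsometryEquiv ⟨((θ (uu g) : LG Λ) : L2 Λ →L[ℂ] L2 Λ), by
    have h1 : star (θ (uu g)) * θ (uu g) = 1 := by
      rw [← theta_star, ← map_mul, star_uu, ← uu_mul, inv_mul_cancel, uu_one, map_one]
    have h2 : θ (uu g) * star (θ (uu g)) = 1 := by
      rw [← theta_star, ← map_mul, star_uu, ← uu_mul, mul_inv_cancel, uu_one, map_one]
    exact ⟨congrArg Subtype.val h1, congrArg Subtype.val h2⟩⟩
  map_one' := by
    ext f : 1
    change ((θ (uu 1) : LG Λ) : L2 Λ →L[ℂ] L2 Λ) f = f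
    rw [uu_one, map_one]
    rfl
  map_mul' g h := by
    ext f : 1
    change ((θ (uu (g * h)) : LG Λ) : L2 Λ →L[ℂ] L2 Λ) f =
      ((θ (uu g) : LG Λ) : L2 Λ →L[ℂ] L2 Λ) (((θ (uu h) : LG Λ) : L2 Λ →L[ℂ] L2 Λ) f)
    rw [uu_mul, map_mul]
    rfl

theorem vv_apply (g : Γ) (f : L2 Λ) :
    vv θ g f = ((θ (uu g) : LG Λ) : L2 Λ →L[ℂ] L2 Λ) f := rfl

theorem inL_of_mem {u : L2 Λ ≃ₗᵢ[ℂ] L2 Λ} {x : LG Λ}
    (h : ∀ f, u f = (x : L2 Λ →L[ℂ] L2 Λ) f) : InL u := by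
  intro S hS f
  have h1 := mem_groupVN.1 x.2 S (by
    intro g
    ext f : 1
    exact hS g f)
  have h2 := DFunLike.congr_fun h1 f
  rw [h, h]
  exact h2

theorem vv_inL (g : Γ) : InL (vv θ g) := inL_of_mem (vv_apply θ g)

variable {θ}

theorem inner_vv (hτ : ∀ x, tr (θ x) = tr x) (g : Γ) (x : LG Γ) :
    inner ℂ (vv θ g (dl 1)) (((θ x : LG Λ) : L2 Λ →L[ℂ] L2 Λ) (dl 1)) =
      ((x : L2 Γ →L[ℂ] L2 Γ) (dl 1)) g := by
  rw [vv_apply, ← tr_star_mul, ← theta_star, ← map_mul, hτ, tr_star_mul, uu_dl, inner_dl_left]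

theorem norm_theta (hτ : ∀ x, tr (θ x) = tr x) (x : LG Γ) :
    ‖((θ x : LG Λ) : L2 Λ →L[ℂ] L2 Λ) (dl 1)‖ ^ 2 = ‖(x : L2 Γ →L[ℂ] L2 Γ) (dl 1)‖ ^ 2 := by
  have h1 : tr (star (θ x) * θ x) = tr (star x * x) := by
    rw [← theta_star, ← map_mul, hτ]
  rw [tr_star_mul, tr_star_mul, inner_self_eq_norm_sq_to_K, inner_self_eq_norm_sq_to_K] at h1
  exact_mod_cast h1

theorem orthonormal_vv (hτ : ∀ x, tr (θ x) = tr x) :
    Orthonormal ℂ (fun g : Γ => vv θ g (dl 1)) := by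
  constructor
  · intro g; rw [LinearIsometryEquiv.norm_map, norm_dl]
  · intro g h hne
    change inner ℂ (vv θ g (dl 1)) (vv θ h (dl 1)) = 0
    rw [vv_apply θ h, inner_vv hτ, uu_dl, dl_apply, if_neg hne]

theorem total_vv (hτ : ∀ x, tr (θ x) = tr x) :
    ⊤ ≤ (Submodule.span ℂ (Set.range fun g : Γ => vv θ g (dl 1))).topologicalClosure := by
  have h1 : ∀ k : Λ, (dl k : L2 Λ) ∈
      (Submodule.span ℂ (Set.range fun g : Γ => vv θ g (dl 1))).topologicalClosure := by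
    intro k
    set x : LG Γ := θ.symm (uu k) with hx
    have e1 : (dl k : L2 Λ) = ((θ x : LG Λ) : L2 Λ →L[ℂ] L2 Λ) (dl 1) := by
      have : θ x = uu k := by rw [hx]; exact θ.apply_symm_apply _
      rw [this, uu_dl]
    rw [e1]
    apply mem_closure_of_parseval (orthonormal_vv hτ)
    have e2 : (fun g : Γ => ‖inner ℂ (vv θ g (dl 1)) (((θ x : LG Λ) : L2 Λ →L[ℂ] L2 Λ) (dl 1))‖ ^ 2)
        = fun g => ‖((x : L2 Γ →L[ℂ] L2 Γ) (dl 1)) g‖ ^ 2 := by
      funext g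
      rw [inner_vv hτ]
    rw [e2, norm_theta hτ]
    exact hasSum_sq _
  intro f _
  have h2 := hasSum_dl f
  apply (Submodule.isClosed_topologicalClosure _).mem_of_tendsto h2
  filter_upwards with s
  exact Submodule.sum_mem _ fun i _ => Submodule.smul_mem _ _ (h1 i)

/-- A trace preserving isomorphism is spatial. -/
theorem exists_spatial (hτ : ∀ x, tr (θ x) = tr x) :
    ∃ U : L2 Γ ≃ₗᵢ[ℂ] L2 Λ, ∀ (x : LG Γ) f,
      ((θ x : LG Λ) : L2 Λ →L[ℂ] L2 Λ) (U f) = U ((x : L2 Γ →L[ℂ] L2 Γ) f) := by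
  classical
  let b := HilbertBasis.mk (orthonormal_vv hτ) (total_vv hτ)
  have hb : ∀ g, b g = vv θ g (dl 1) := by
    intro g
    change (HilbertBasis.mk (orthonormal_vv hτ) (total_vv hτ)) g = _
    rw [HilbertBasis.coe_mk]
  have hU : ∀ g, b.repr.symm (dl g) = vv θ g (dl 1) := by
    intro g
    have h1 := b.repr_symm_single g
    rw [← hb, ← h1]
    unfold dl
    congr!
  have hC : ∀ x : LG Γ, b.repr.symm ((x : L2 Γ →L[ℂ] L2 Γ) (dl 1)) =
      ((θ x : LG Λ) : L2 Λ →L[ℂ] L2 Λ) (dl 1) := by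
    intro x
    rw [LinearIsometryEquiv.symm_apply_eq]
    apply l2_ext
    intro g
    rw [b.repr_apply_apply, hb, inner_vv hτ]
  refine ⟨b.repr.symm, ?_⟩
  intro x f
  have h2 : ((θ x : LG Λ) : L2 Λ →L[ℂ] L2 Λ).comp
      (b.repr.symm.toContinuousLinearEquiv : L2 Γ →L[ℂ] L2 Λ) =
      (b.repr.symm.toContinuousLinearEquiv : L2 Γ →L[ℂ] L2 Λ).comp
      (x : L2 Γ →L[ℂ] L2 Γ) := by
    apply clm_ext
    intro g
    change ((θ x : LG Λ) : L2 Λ →L[ℂ] L2 Λ) (b.repr.symm (dl g)) =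
      b.repr.symm ((x : L2 Γ →L[ℂ] L2 Γ) (dl g))
    rw [hU, vv_apply]
    have e1 := hC (x * uu g)
    rw [map_mul] at e1
    change b.repr.symm ((x : L2 Γ →L[ℂ] L2 Γ) ((uu g : L2 Γ →L[ℂ] L2 Γ) (dl 1))) =
      ((θ x : LG Λ) : L2 Λ →L[ℂ] L2 Λ) (((θ (uu g) : LG Λ) : L2 Λ →L[ℂ] L2 Λ) (dl 1)) at e1
    rw [← e1, uu_dl]
  exact DFunLike.congr_fun h2 f

theorem gen_vv (hτ : ∀ x, tr (θ x) = tr x) (k : Λ) :
    InBic (fun g => vv θ g) (lamU k) := by
  intro S hS f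
  obtain ⟨U, hU⟩ := exists_spatial hτ
  set S' : L2 Γ →L[ℂ] L2 Γ := (U.symm.toContinuousLinearEquiv : L2 Λ →L[ℂ] L2 Γ).comp
    (S.comp (U.toContinuousLinearEquiv : L2 Γ →L[ℂ] L2 Λ)) with hS'
  have hSa : ∀ f, S' f = U.symm (S (U f)) := fun f => rfl
  have h1 : ∀ g, S' * lam g = lam g * S' := by
    intro g
    ext f : 1
    change U.symm (S (U (lam g f))) = lam g (U.symm (S (U f)))
    have e1 := hU (uu g) f
    change vv θ g (U f) = U (lam g f) at e1
    have e2 := hU (uu g) (U.symm (S (U f)))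
    change vv θ g (U (U.symm (S (U f)))) = U (lam g (U.symm (S (U f)))) at e2
    rw [LinearIsometryEquiv.apply_symm_apply] at e2
    rw [← e1, hS, e2, LinearIsometryEquiv.symm_apply_apply]
  set x : LG Γ := θ.symm (uu k) with hx
  have hθx : θ x = uu k := by rw [hx]; exact θ.apply_symm_apply _
  have h2 := mem_groupVN.1 x.2 S' h1
  have h3 := DFunLike.congr_fun h2 (U.symm f)
  change U.symm (S (U ((x : L2 Γ →L[ℂ] L2 Γ) (U.symm f)))) =
    (x : L2 Γ →L[ℂ] L2 Γ) (U.symm (S (U (U.symm f)))) at h3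
  have e1 := hU x (U.symm f)
  rw [LinearIsometryEquiv.apply_symm_apply, hθx] at e1
  rw [← e1, LinearIsometryEquiv.apply_symm_apply] at h3
  have h4 := congrArg U h3
  rw [LinearIsometryEquiv.apply_symm_apply, ← hU, LinearIsometryEquiv.apply_symm_apply, hθx] at h4
  exact h4

/-- Local rigidity. -/
theorem local_rigidity {S : Set Γ} {κ : ℝ} (hK : IsKazhdanPair Γ S κ)
    (hicc : ∀ k : Λ, k ≠ 1 → (Set.range fun h : Λ => h * k * h⁻¹).Infinite)
    (hτ : ∀ x, tr (θ x) = tr x)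
    (hS : ∀ s ∈ S, ∃ h, 1 - κ ^ 2 / 320 ≤ ‖coef (θ (uu s)) h‖) :
    ∃ (φ : Γ ≃* Λ) (χ : Γ →* Circle), ∃ w ∈ unitary (LG Λ),
      ∀ g, θ (uu g) = (χ g : ℂ) • (w * uu (φ g) * star w) := by
  obtain ⟨φ, χ, w, hw, hform⟩ := core hK (vv θ) (vv_inL θ) hS (by
    intro g hg
    have h1 := hτ (uu g)
    change cf (vv θ g) 1 = _ at h1
    rw [h1]
    unfold tr coef
    rw [uu_dl, dl_apply, if_neg (Ne.symm hg)]) (gen_vv hτ) hicc
  have hmem : (w.toContinuousLinearEquiv : L2 Λ →L[ℂ] L2 Λ) ∈ groupVN Λ := by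
    rw [mem_groupVN]
    intro T hT
    ext f : 1
    exact hw T (fun g f => DFunLike.congr_fun (hT g) f) f
  set W : LG Λ := ⟨(w.toContinuousLinearEquiv : L2 Λ →L[ℂ] L2 Λ), hmem⟩ with hW
  have hstar : ∀ f, ((star W : LG Λ) : L2 Λ →L[ℂ] L2 Λ) f = w.symm f := by
    intro f
    change (star (w.toContinuousLinearEquiv : L2 Λ →L[ℂ] L2 Λ)) f = w.symm f
    rw [ContinuousLinearMap.star_eq_adjoint]
    apply w.injective
    rw [LinearIsometryEquiv.apply_symm_apply]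
    apply ext_inner_left ℂ
    intro y
    have : y = w (w.symm y) := (w.apply_symm_apply y).symm
    rw [this, LinearIsometryEquiv.inner_map_map, ContinuousLinearMap.adjoint_inner_right]
    rfl
  have hunit : W ∈ unitary (LG Λ) := by
    rw [Unitary.mem_iff]
    constructor
    · apply Subtype.ext
      ext f : 1
      change ((star W : LG Λ) : L2 Λ →L[ℂ] L2 Λ) (w f) = f
      rw [hstar, LinearIsometryEquiv.symm_apply_apply]
    · apply Subtype.ext
      ext f : 1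
      change w (((star W : LG Λ) : L2 Λ →L[ℂ] L2 Λ) f) = f
      rw [hstar, LinearIsometryEquiv.apply_symm_apply]
  refine ⟨φ, χ, W, hunit, ?_⟩
  intro g
  apply Subtype.ext
  ext f : 1
  change vv θ g f = (χ g : ℂ) • w (lamU (φ g) (((star W : LG Λ) : L2 Λ →L[ℂ] L2 Λ) f))
  rw [hstar, ← hform, LinearIsometryEquiv.apply_symm_apply]

end Theta

end Pool.Agent.Helper84.GVN
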