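import Pool.Agent.Helper84.GVN.Basic

/-!
The group von Neumann algebra, its Fourier coefficients, right multiplication.
-/

open scoped ENNReal ComplexConjugate

namespace Pool.Agent.Helper84.GVN

section Group

variable {G : Type*} [Group G]

/-- Left translation `(lamU g f) x = f (g⁻¹ x)`. -/
noncomputable def lamU (g : G) : L2 G ≃ₗᵢ[ℂ] L2 G := permU (Equiv.mulLeft g)

/-- Right translation `(rhoU g f) x = f (x g)`. -/
noncomputable def rhoU (g : G) : L2 G ≃ₗᵢ[ℂ] L2 G := permU (Equiv.mulRight g⁻¹)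

@[simp] theorem lamU_apply (g : G) (f : L2 G) (x : G) : lamU g f x = f (g⁻¹ * x) := rfl

@[simp] theorem rhoU_apply (g : G) (f : L2 G) (x : G) : rhoU g f x = f (x * g) := by
  change f ((Equiv.mulRight g⁻¹).symm x) = _
  simp

theorem lamU_dl (g x : G) : lamU g (dl x) = dl (g * x) := permU_dl _ _

theorem rhoU_dl (g x : G) : rhoU g (dl x) = dl (x * g⁻¹) := permU_dl _ _

theorem lamU_mul (g h : G) : (lamU (g * h) : L2 G ≃ₗᵢ[ℂ] L2 G) = lamU g * lamU h := by
  ext f : 1
  apply l2_ext; intro x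
  simp [LinearIsometryEquiv.coe_mul, mul_assoc]

theorem rhoU_mul (g h : G) : (rhoU (g * h) : L2 G ≃ₗᵢ[ℂ] L2 G) = rhoU g * rhoU h := by
  ext f : 1
  apply l2_ext; intro x
  simp [LinearIsometryEquiv.coe_mul, mul_assoc]

theorem lamU_one : (lamU (1 : G) : L2 G ≃ₗᵢ[ℂ] L2 G) = 1 := by
  ext f : 1
  apply l2_ext; intro x
  simp

theorem rhoU_one : (rhoU (1 : G) : L2 G ≃ₗᵢ[ℂ] L2 G) = 1 := by
  ext f : 1
  apply l2_ext; intro x
  simp

theorem lam_rho (g h : G) (f : L2 G) : lamU g (rhoU h f) = rhoU h (lamU g f) := by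
  apply l2_ext; intro x
  simp [mul_assoc]

/-- Left translation as a bounded operator. -/
noncomputable def lam (g : G) : L2 G →L[ℂ] L2 G :=
  (lamU g).toContinuousLinearEquiv

@[simp] theorem lam_apply (g : G) (f : L2 G) (x : G) : lam g f x = f (g⁻¹ * x) := rfl

theorem lam_eq (g : G) (f : L2 G) : lam g f = lamU g f := rfl

theorem star_lam (g : G) : star (lam g) = lam g⁻¹ := by
  rw [ContinuousLinearMap.star_eq_adjoint]
  symm
  rw [ContinuousLinearMap.eq_adjoint_iff]
  intro x y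
  have h : y = lamU g⁻¹ (lamU g y) := by
    apply l2_ext; intro z; simp
  conv_lhs => rw [h]
  rw [lam_eq, LinearIsometryEquiv.inner_map_map, lam_eq]

variable (G) in
/-- The group von Neumann algebra `L(G)`: the double commutant of the left translations. -/
noncomputable def groupVN : VonNeumannAlgebra (L2 G) where
  carrier := Set.centralizer (Set.centralizer (Set.range (lam : G → L2 G →L[ℂ] L2 G)))
  mul_mem' := Set.mul_mem_centralizer
  one_mem' := Set.one_mem_centralizer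
  add_mem' := Set.add_mem_centralizer
  zero_mem' := Set.zero_mem_centralizer
  algebraMap_mem' r := by
    intro m _
    exact (Algebra.commutes r m).symm
  star_mem' := by
    intro a ha
    have hs : ∀ m ∈ Set.centralizer (Set.range (lam : G → L2 G →L[ℂ] L2 G)),
        star m ∈ Set.centralizer (Set.range (lam : G → L2 G →L[ℂ] L2 G)) := by
      intro m hm
      rintro _ ⟨g, rfl⟩
      have h := hm (lam g⁻¹) ⟨g⁻¹, rfl⟩
      have h2 := congrArg star h
      rw [star_mul, star_mul, star_lam, inv_inv] at h2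
      exact h2.symm
    intro m hm
    have h := ha (star m) (hs m hm)
    have h2 := congrArg star h
    rw [star_mul, star_mul, star_star] at h2
    exact h2.symm
  centralizer_centralizer' := by
    simp

theorem mem_groupVN {x : L2 G →L[ℂ] L2 G} :
    x ∈ groupVN G ↔ ∀ S : L2 G →L[ℂ] L2 G, (∀ g, S * lam g = lam g * S) → S * x = x * S := by
  constructor
  · intro h S hS
    exact h S (by rintro _ ⟨g, rfl⟩; exact (hS g).symm)
  · intro h S hS
    exact h S (fun g => (hS (lam g) ⟨g, rfl⟩).symm)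

theorem lam_mem (g : G) : lam g ∈ groupVN G := by
  rw [mem_groupVN]
  intro S hS
  exact hS g

end Group

section Comm

variable {G : Type*} [Group G]

/-- `u` lies in the bicommutant of the left translations. -/
def InL (u : L2 G ≃ₗᵢ[ℂ] L2 G) : Prop := InBic (fun g : G => lamU g) u

/-- `u` commutes with the right translations. -/
def CommR (u : L2 G ≃ₗᵢ[ℂ] L2 G) : Prop := ∀ (k : G) f, u (rhoU k f) = rhoU k (u f)

theorem InL.commR {u : L2 G ≃ₗᵢ[ℂ] L2 G} (h : InL u) : CommR u := by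
  intro k f
  have := h ((rhoU k).toContinuousLinearEquiv : L2 G →L[ℂ] L2 G)
    (fun g f => (lam_rho g k f).symm) f
  exact this.symm

theorem inL_lamU (g : G) : InL (lamU g) := fun _ hS f => hS g f

theorem InL.mul {u v : L2 G ≃ₗᵢ[ℂ] L2 G} (hu : InL u) (hv : InL v) : InL (u * v) := by
  intro S hS f
  simp only [LinearIsometryEquiv.coe_mul, Function.comp_apply]
  rw [hu S hS, hv S hS]

/-- Expansion of a bounded operator in coordinates. -/
theorem hasSum_clm {I J : Type*} (S : L2 I →L[ℂ] L2 J) (f : L2 I) (b : J) :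
    HasSum (fun c => f c * (S (dl c)) b) (S f b) := by
  have h1 := (hasSum_dl f).mapL S
  have h2 := h1.mapL (lp.evalCLM ℂ (fun _ : J => ℂ) (p := 2) b)
  convert! h2 using 2 with c
  rw [map_smul]
  rfl

theorem commR_apply_dl {u : L2 G →L[ℂ] L2 G} (hu : ∀ (k : G) f, u (rhoU k f) = rhoU k (u f))
    (x y : G) : u (dl x) y = u (dl 1) (y * x⁻¹) := by
  have h := hu x⁻¹ (dl 1)
  rw [rhoU_dl, inv_inv, one_mul] at h
  rw [h, rhoU_apply]

theorem commL_apply_dl {u : L2 G →L[ℂ] L2 G} (hu : ∀ (k : G) f, u (lamU k f) = lamU k (u f))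
    (x y : G) : u (dl x) y = u (dl 1) (x⁻¹ * y) := by
  have h := hu x (dl 1)
  rw [lamU_dl, mul_one] at h
  rw [h, lamU_apply]

/-- The commutation theorem for group von Neumann algebras. -/
theorem comm_of_commR {u S : L2 G →L[ℂ] L2 G} (hu : ∀ (k : G) f, u (rhoU k f) = rhoU k (u f))
    (hS : ∀ (k : G) f, S (lamU k f) = lamU k (S f)) : S.comp u = u.comp S := by
  apply clm_ext
  intro a
  apply l2_ext
  intro b
  have h1 := hasSum_clm S (u (dl a)) b
  have h2 := hasSum_clm u (S (dl a)) b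
  have h3 : (fun c => u (dl a) c * S (dl c) b) = fun c => u (dl 1) (c * a⁻¹) * S (dl 1) (c⁻¹ * b) := by
    funext c
    rw [commR_apply_dl hu a c, commL_apply_dl hS c b]
  have h4 : (fun c => S (dl a) c * u (dl c) b) = fun c => S (dl 1) (a⁻¹ * c) * u (dl 1) (b * c⁻¹) := by
    funext c
    rw [commR_apply_dl hu c b, commL_apply_dl hS a c]
  rw [h3] at h1
  rw [h4] at h2
  let e : G ≃ G :=
    { toFun := fun d => b * d⁻¹ * a
      invFun := fun c => a * c⁻¹ * b
      left_inv := fun d => by group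
      right_inv := fun c => by group }
  have h5 := (Equiv.hasSum_iff e).2 h1
  have h6 : ((fun c => u (dl 1) (c * a⁻¹) * S (dl 1) (c⁻¹ * b)) ∘ e) =
      fun c => S (dl 1) (a⁻¹ * c) * u (dl 1) (b * c⁻¹) := by
    funext d
    simp only [Function.comp_apply, e, Equiv.coe_fn_mk]
    rw [mul_comm]
    congr 2 <;> group
  rw [h6] at h5
  exact h5.unique h2

theorem CommR.inL {u : L2 G ≃ₗᵢ[ℂ] L2 G} (hu : CommR u) : InL u := by
  intro S hS f
  have h := comm_of_commR (u := (u.toContinuousLinearEquiv : L2 G →L[ℂ] L2 G)) (S := S) hu hS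
  exact DFunLike.congr_fun h f

theorem inL_iff {u : L2 G ≃ₗᵢ[ℂ] L2 G} : InL u ↔ CommR u := ⟨InL.commR, CommR.inL⟩

theorem CommR.cjU {u : L2 G ≃ₗᵢ[ℂ] L2 G} (hu : CommR u) : CommR (cjU u) := by
  intro k f
  have h1 : ∀ g : L2 G, cj (rhoU k g) = rhoU k (cj g) := by
    intro g
    apply l2_ext; intro x; simp
  rw [cjU_apply, cjU_apply, h1, hu, h1]

/-- Fourier coefficients of a unitary. -/
noncomputable def cf (u : L2 G ≃ₗᵢ[ℂ] L2 G) : L2 G := u (dl 1)

theorem CommR.apply_dl {u : L2 G ≃ₗᵢ[ℂ] L2 G} (hu : CommR u) (x y : G) :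
    u (dl x) y = cf u (y * x⁻¹) :=
  commR_apply_dl (u := (u.toContinuousLinearEquiv : L2 G →L[ℂ] L2 G)) hu x y

theorem norm_cf (u : L2 G ≃ₗᵢ[ℂ] L2 G) : ‖cf u‖ = 1 := by
  rw [cf, LinearIsometryEquiv.norm_map, norm_dl]

variable (G) in
/-- The inversion unitary. -/
noncomputable def ivU : L2 G ≃ₗᵢ[ℂ] L2 G := permU (Equiv.inv G)

@[simp] theorem ivU_apply (f : L2 G) (x : G) : ivU G f x = f x⁻¹ := rfl

theorem ivU_ivU (f : L2 G) : ivU G (ivU G f) = f := by
  apply l2_ext; intro x; simp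

theorem ivU_mul_self : ivU G * ivU G = 1 := by
  ext f : 1
  exact ivU_ivU f

/-- Right multiplication by the adjoint. -/
noncomputable def jjU (u : L2 G ≃ₗᵢ[ℂ] L2 G) : L2 G ≃ₗᵢ[ℂ] L2 G := ivU G * cjU u * ivU G

theorem jjU_apply (u : L2 G ≃ₗᵢ[ℂ] L2 G) (f : L2 G) : jjU u f = ivU G (cj (u (cj (ivU G f)))) :=
  rfl

theorem jjU_mul (u v : L2 G ≃ₗᵢ[ℂ] L2 G) : jjU (u * v) = jjU u * jjU v := by
  unfold jjU
  rw [cjU_mul]
  calc ivU G * (cjU u * cjU v) * ivU G = ivU G * cjU u * 1 * cjU v * ivU G := by group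
    _ = ivU G * cjU u * (ivU G * ivU G) * cjU v * ivU G := by rw [ivU_mul_self]
    _ = _ := by group

theorem jjU_one : jjU (1 : L2 G ≃ₗᵢ[ℂ] L2 G) = 1 := by
  unfold jjU
  rw [cjU_one, mul_one, ivU_mul_self]

theorem CommR.jjU_lam {u : L2 G ≃ₗᵢ[ℂ] L2 G} (hu : CommR u) (h : G) (f : L2 G) :
    jjU u (lamU h f) = lamU h (jjU u f) := by
  have h1 : ∀ g : L2 G, cj (ivU G (lamU h g)) = rhoU h (cj (ivU G g)) := by
    intro g
    apply l2_ext; intro x; simp
  have h2 : ∀ g : L2 G, ivU G (cj (rhoU h g)) = lamU h (ivU G (cj g)) := by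
    intro g
    apply l2_ext; intro x; simp
  rw [jjU_apply, jjU_apply, h1, hu, h2]

theorem jjU_dl_one (u : L2 G ≃ₗᵢ[ℂ] L2 G) (x : G) : jjU u (dl 1) x = conj (cf u x⁻¹) := by
  rw [jjU_apply]
  have h1 : cj (ivU G (dl 1 : L2 G)) = dl 1 := by
    rw [ivU, permU_dl]
    simp
  rw [h1]
  simp [cf]

theorem jjU_lamU (g : G) : jjU (lamU g) = (rhoU g : L2 G ≃ₗᵢ[ℂ] L2 G) := by
  ext f : 1
  apply l2_ext; intro x
  simp [jjU_apply]

end Comm

end Pool.Agent.Helper84.GVN
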