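import Mathlib

/-!
Kazhdan pairs, and one-dimensional invariant subspaces of unitary representations with an almost
invariant line.
-/

open scoped ComplexConjugate

namespace Pool.Agent.Helper84.GVN

/-- `(S, κ)` is a Kazhdan pair for the group `Γ`: every unitary representation of `Γ` on a complex
Hilbert space that has a nonzero vector `ξ` with `‖π(s)ξ - ξ‖ < κ‖ξ‖` for all `s ∈ S` has a
nonzero invariant vector. -/
def IsKazhdanPair (Γ : Type) [Group Γ] (S : Set Γ) (κ : ℝ) : Prop :=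
  0 < κ ∧ ∀ (H : Type) [NormedAddCommGroup H] [InnerProductSpace ℂ H] [CompleteSpace H]
    (π : Γ →* (H ≃ₗᵢ[ℂ] H)) (ξ : H), ξ ≠ 0 → (∀ s ∈ S, ‖π s ξ - ξ‖ < κ * ‖ξ‖) →
      ∃ ζ : H, ζ ≠ 0 ∧ ∀ g, π g ζ = ζ

section Kazhdan

variable {Γ : Type} [Group Γ] {H : Type} [NormedAddCommGroup H] [InnerProductSpace ℂ H]

/-- The invariant vectors. -/
def invVec (π : Γ →* (H ≃ₗᵢ[ℂ] H)) : Submodule ℂ H where
  carrier := {ζ | ∀ g, π g ζ = ζ}
  add_mem' := by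
    intro a b ha hb g
    rw [map_add, ha g, hb g]
  zero_mem' := fun g => map_zero _
  smul_mem' := by
    intro c x hx g
    rw [map_smul, hx g]

theorem mem_invVec {π : Γ →* (H ≃ₗᵢ[ℂ] H)} {ζ : H} : ζ ∈ invVec π ↔ ∀ g, π g ζ = ζ := Iff.rfl

theorem isClosed_invVec (π : Γ →* (H ≃ₗᵢ[ℂ] H)) : IsClosed (invVec π : Set H) := by
  have : (invVec π : Set H) = ⋂ g, {ζ | π g ζ = ζ} := by
    ext ζ
    simp [mem_invVec]
  rw [this]
  exact isClosed_iInter fun g => isClosed_eq (π g).continuous continuous_id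

theorem map_orth {π : Γ →* (H ≃ₗᵢ[ℂ] H)} (g : Γ) {x : H} (hx : x ∈ (invVec π)ᗮ) :
    π g x ∈ (invVec π)ᗮ := by
  rw [Submodule.mem_orthogonal] at hx ⊢
  intro u hu
  have h1 : u = π g u := (hu g).symm
  rw [h1, LinearIsometryEquiv.inner_map_map]
  exact hx u hu

/-- The restriction to the orthogonal complement of the invariant vectors. -/
noncomputable def restr (π : Γ →* (H ≃ₗᵢ[ℂ] H)) :
    Γ →* ((invVec π)ᗮ ≃ₗᵢ[ℂ] (invVec π)ᗮ) where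
  toFun g :=
    { toFun := fun x => ⟨π g x, map_orth g x.2⟩
      invFun := fun x => ⟨π g⁻¹ x, map_orth g⁻¹ x.2⟩
      left_inv := fun x => by
        apply Subtype.ext
        simp [map_inv]
      right_inv := fun x => by
        apply Subtype.ext
        simp [map_inv]
      map_add' := fun x y => by
        apply Subtype.ext; simp
      map_smul' := fun c x => by
        apply Subtype.ext; simp
      norm_map' := fun x => by
        change ‖π g x‖ = ‖(x : H)‖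
        exact LinearIsometryEquiv.norm_map _ _ }
  map_one' := by
    ext x
    simp
  map_mul' g h := by
    ext x
    simp

theorem kazhdan_close [CompleteSpace H] {S : Set Γ} {κ : ℝ} (hK : IsKazhdanPair Γ S κ)
    (π : Γ →* (H ≃ₗᵢ[ℂ] H)) (ξ : H) {ε : ℝ} (hε : 0 ≤ ε) (hS : ∀ s ∈ S, ‖π s ξ - ξ‖ ≤ ε)
    (g : Γ) : ‖π g ξ - ξ‖ ≤ 2 * ε / κ := by
  have hκ := hK.1
  have : CompleteSpace (invVec π) := (isClosed_invVec π).completeSpace_coe
  obtain ⟨ξ₀, h0, ξ₁, h1, hsum⟩ := (invVec π).exists_add_mem_mem_orthogonal ξ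
  have hdiff : ∀ g, π g ξ - ξ = π g ξ₁ - ξ₁ := by
    intro g
    rw [hsum, map_add, h0 g]
    abel
  have hnorm : ‖ξ₁‖ ≤ ε / κ := by
    by_contra hcon
    push Not at hcon
    have hpos : 0 < ‖ξ₁‖ := lt_of_le_of_lt (by positivity) hcon
    obtain ⟨ζ, hζ0, hζ⟩ := hK.2 (invVec π)ᗮ (restr π) ⟨ξ₁, h1⟩ (by
      intro h
      have : ξ₁ = 0 := congrArg Subtype.val h
      rw [this, norm_zero] at hpos
      exact lt_irrefl _ hpos) (by
      intro s hs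
      change ‖π s ξ₁ - ξ₁‖ < κ * ‖ξ₁‖
      rw [← hdiff]
      refine lt_of_le_of_lt (hS s hs) ?_
      rw [div_lt_iff₀ hκ] at hcon
      linarith [mul_comm ‖ξ₁‖ κ])
    apply hζ0
    have h3 : (ζ : H) ∈ invVec π := by
      intro g
      exact congrArg Subtype.val (hζ g)
    have h4 := (Submodule.mem_orthogonal _ _).1 ζ.2 ζ h3
    rw [inner_self_eq_zero] at h4
    exact Subtype.ext h4
  rw [hdiff]
  calc ‖π g ξ₁ - ξ₁‖ ≤ ‖π g ξ₁‖ + ‖ξ₁‖ := norm_sub_le _ _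
    _ = 2 * ‖ξ₁‖ := by rw [LinearIsometryEquiv.norm_map]; ring
    _ ≤ 2 * (ε / κ) := by linarith
    _ = 2 * ε / κ := by ring

end Kazhdan

section Line

variable {H : Type*} [NormedAddCommGroup H] [InnerProductSpace ℂ H]

/-- Bessel inequality for two orthogonal vectors. -/
theorem bessel_two {x z w : H} (h : inner ℂ z w = 0) :
    ‖inner ℂ z x‖ ^ 2 * ‖w‖ ^ 2 + ‖inner ℂ w x‖ ^ 2 * ‖z‖ ^ 2 ≤ ‖x‖ ^ 2 * ‖z‖ ^ 2 * ‖w‖ ^ 2 := by
  by_cases hz : z = 0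
  · subst hz; simp
  by_cases hw : w = 0
  · subst hw; simp
  have hz' : 0 < ‖z‖ ^ 2 := by positivity
  have hw' : 0 < ‖w‖ ^ 2 := by positivity
  have h' : inner ℂ w z = 0 := by rw [← inner_conj_symm, h, map_zero]
  set a : ℂ := inner ℂ z x with ha
  set b : ℂ := inner ℂ w x with hb
  have hxz : inner ℂ x z = conj a := by rw [ha, inner_conj_symm]
  have hxw : inner ℂ x w = conj b := by rw [hb, inner_conj_symm]
  have hzz : inner ℂ z z = ((‖z‖ ^ 2 : ℝ) : ℂ) := by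
    rw [inner_self_eq_norm_sq_to_K]; simp
  have hww : inner ℂ w w = ((‖w‖ ^ 2 : ℝ) : ℂ) := by
    rw [inner_self_eq_norm_sq_to_K]; simp
  have hxx : inner ℂ x x = ((‖x‖ ^ 2 : ℝ) : ℂ) := by
    rw [inner_self_eq_norm_sq_to_K]; simp
  set A : ℝ := ‖z‖ ^ 2 with hA
  set B : ℝ := ‖w‖ ^ 2 with hB
  set X : ℝ := ‖x‖ ^ 2 with hX
  have hnn : 0 ≤ ‖x - (a / A) • z - (b / B) • w‖ ^ 2 := by positivity
  have e1 : ((‖x - (a / A) • z - (b / B) • w‖ ^ 2 : ℝ) : ℂ) =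
      ((X - ‖a‖ ^ 2 / A - ‖b‖ ^ 2 / B : ℝ) : ℂ) := by
    have : ((‖x - (a / A) • z - (b / B) • w‖ ^ 2 : ℝ) : ℂ) =
        inner ℂ (x - (a / A) • z - (b / B) • w) (x - (a / A) • z - (b / B) • w) := by
      rw [inner_self_eq_norm_sq_to_K]; simp
    rw [this]
    simp only [inner_sub_left, inner_sub_right, inner_smul_left, inner_smul_right, hxz, hxw, h, h',
      hzz, hww, hxx, ← ha, ← hb]
    have hA0 : (A : ℂ) ≠ 0 := by exact_mod_cast hz'.ne'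
    have hB0 : (B : ℂ) ≠ 0 := by exact_mod_cast hw'.ne'
    have hna : ((‖a‖ ^ 2 : ℝ) : ℂ) = a * conj a := by
      rw [Complex.mul_conj, Complex.normSq_eq_norm_sq]
    have hnb : ((‖b‖ ^ 2 : ℝ) : ℂ) = b * conj b := by
      rw [Complex.mul_conj, Complex.normSq_eq_norm_sq]
    simp only [map_div₀, Complex.conj_ofReal]
    push_cast at hna hnb ⊢
    rw [hna, hnb]
    field_simp
    ring
  have e2 : ‖x - (a / A) • z - (b / B) • w‖ ^ 2 = X - ‖a‖ ^ 2 / A - ‖b‖ ^ 2 / B := by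
    exact_mod_cast e1
  rw [e2] at hnn
  have e3 : 0 ≤ (X - ‖a‖ ^ 2 / A - ‖b‖ ^ 2 / B) * (A * B) := mul_nonneg hnn (by positivity)
  have e4 : (X - ‖a‖ ^ 2 / A - ‖b‖ ^ 2 / B) * (A * B) = X * A * B - ‖a‖ ^ 2 * B - ‖b‖ ^ 2 * A := by
    field_simp
  rw [e4] at e3
  linarith

/-- The midpoint estimate in projective space. -/
theorem midpoint_est {x ξ ξ' : H} {s f : ℝ} (hx : ‖x‖ = 1) (hξ : ‖ξ‖ = 1) (hξ' : ‖ξ'‖ = 1)
    (hs : inner ℂ ξ ξ' = (s : ℂ)) (h1 : f ≤ ‖inner ℂ x ξ‖ ^ 2) (h2 : f ≤ ‖inner ℂ x ξ'‖ ^ 2) :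
    4 * f * (1 + s) - 2 * (1 - s) * (1 + s) ≤ 2 * s * ‖inner ℂ x (ξ + ξ')‖ ^ 2 := by
  have hs' : inner ℂ ξ' ξ = (s : ℂ) := by rw [← inner_conj_symm, hs, Complex.conj_ofReal]
  have hξξ : inner ℂ ξ ξ = (1 : ℂ) := by rw [inner_self_eq_norm_sq_to_K, hξ]; simp
  have hξξ' : inner ℂ ξ' ξ' = (1 : ℂ) := by rw [inner_self_eq_norm_sq_to_K, hξ']; simp
  have horth : inner ℂ (ξ + ξ') (ξ - ξ') = 0 := by
    simp only [inner_add_left, inner_sub_right, hs, hs', hξξ, hξξ']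
    ring
  have hb := bessel_two (x := x) horth
  have np : ‖ξ + ξ'‖ ^ 2 = 2 + 2 * s := by
    have : ((‖ξ + ξ'‖ ^ 2 : ℝ) : ℂ) = ((2 + 2 * s : ℝ) : ℂ) := by
      have e : ((‖ξ + ξ'‖ ^ 2 : ℝ) : ℂ) = inner ℂ (ξ + ξ') (ξ + ξ') := by
        rw [inner_self_eq_norm_sq_to_K]; simp
      rw [e]
      simp only [inner_add_left, inner_add_right, hs, hs', hξξ, hξξ']
      push_cast; ring
    exact_mod_cast this
  have nm : ‖ξ - ξ'‖ ^ 2 = 2 - 2 * s := by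
    have : ((‖ξ - ξ'‖ ^ 2 : ℝ) : ℂ) = ((2 - 2 * s : ℝ) : ℂ) := by
      have e : ((‖ξ - ξ'‖ ^ 2 : ℝ) : ℂ) = inner ℂ (ξ - ξ') (ξ - ξ') := by
        rw [inner_self_eq_norm_sq_to_K]; simp
      rw [e]
      simp only [inner_sub_left, inner_sub_right, hs, hs', hξξ, hξξ']
      push_cast; ring
    exact_mod_cast this
  have par : ‖inner ℂ x (ξ + ξ')‖ ^ 2 + ‖inner ℂ x (ξ - ξ')‖ ^ 2 =
      2 * (‖inner ℂ x ξ‖ ^ 2 + ‖inner ℂ x ξ'‖ ^ 2) := by
    rw [inner_add_right, inner_sub_right]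
    have := parallelogram_law_with_norm ℝ (inner ℂ x ξ) (inner ℂ x ξ')
    nlinarith [this]
  have n1 : ‖inner ℂ (ξ + ξ') x‖ = ‖inner ℂ x (ξ + ξ')‖ := norm_inner_symm _ _
  have n2 : ‖inner ℂ (ξ - ξ') x‖ = ‖inner ℂ x (ξ - ξ')‖ := norm_inner_symm _ _
  rw [n1, n2, np, nm, hx] at hb
  have hs1 : 0 ≤ 2 + 2 * s := by rw [← np]; positivity
  have hs2 : 0 ≤ 2 - 2 * s := by rw [← nm]; positivity
  nlinarith [hb, par, h1, h2, hs1, hs2, mul_nonneg hs1 (sub_nonneg.2 h1),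
    mul_nonneg hs1 (sub_nonneg.2 h2)]

end Line

section Circum

variable {H : Type*} [NormedAddCommGroup H] [InnerProductSpace ℂ H]

theorem exists_phase (c : ℂ) : ∃ a : ℂ, ‖a‖ = 1 ∧ a * c = (‖c‖ : ℂ) := by
  by_cases hc : c = 0
  · exact ⟨1, by simp, by simp [hc]⟩
  · refine ⟨conj c / ‖c‖, ?_, ?_⟩
    · rw [norm_div, RCLike.norm_conj, Complex.norm_real, norm_norm, div_self (norm_ne_zero_iff.2 hc)]
    · have h1 : (‖c‖ : ℂ) ≠ 0 := by exact_mod_cast (norm_ne_zero_iff.2 hc)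
      rw [div_mul_eq_mul_div, mul_comm (conj c) c, Complex.mul_conj, Complex.normSq_eq_norm_sq]
      push_cast
      field_simp

theorem key_est {ι : Type*} [Nonempty ι] {x : ι → H} (hx : ∀ i, ‖x i‖ = 1) {S₀ f : ℝ}
    (hup : ∀ (m : H) (t : ℝ), ‖m‖ = 1 → (∀ i, t ≤ ‖inner ℂ (x i) m‖ ^ 2) → t ≤ S₀)
    (hf : 1 / 2 < f) {ξ ξ' : H} (hξ : ‖ξ‖ = 1) (hξ' : ‖ξ'‖ = 1)
    (h1 : ∀ i, f ≤ ‖inner ℂ (x i) ξ‖ ^ 2) (h2 : ∀ i, f ≤ ‖inner ℂ (x i) ξ'‖ ^ 2) :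
    (1 - ‖inner ℂ ξ ξ'‖) * (4 * S₀ - 2) ≤ 4 * (S₀ - f) := by
  obtain ⟨a, ha, hac⟩ := exists_phase (inner ℂ ξ ξ')
  set s : ℝ := ‖inner ℂ ξ ξ'‖ with hs
  have hs0 : 0 ≤ s := norm_nonneg _
  have hn2 : ‖a • ξ'‖ = 1 := by rw [norm_smul, ha, hξ', one_mul]
  have hin : inner ℂ ξ (a • ξ') = (s : ℂ) := by rw [inner_smul_right, hac]
  have h2' : ∀ i, f ≤ ‖inner ℂ (x i) (a • ξ')‖ ^ 2 := by
    intro i
    rw [inner_smul_right, norm_mul, ha, one_mul]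
    exact h2 i
  have hm : ∀ i, 4 * f * (1 + s) - 2 * (1 - s) * (1 + s) ≤
      2 * s * ‖inner ℂ (x i) (ξ + a • ξ')‖ ^ 2 := fun i =>
    midpoint_est (hx i) hξ hn2 hin (h1 i) (h2' i)
  have hspos : 0 < s := by
    rcases hs0.eq_or_lt with h | h
    · exfalso
      obtain ⟨i⟩ := (inferInstance : Nonempty ι)
      have := hm i
      rw [← h] at this
      linarith
    · exact h
  have np : ‖ξ + a • ξ'‖ ^ 2 = 2 + 2 * s := by
    have hin' : inner ℂ (a • ξ') ξ = (s : ℂ) := by rw [← inner_conj_symm, hin, Complex.conj_ofReal]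
    have hξξ : inner ℂ ξ ξ = (1 : ℂ) := by rw [inner_self_eq_norm_sq_to_K, hξ]; simp
    have hξξ' : inner ℂ (a • ξ') (a • ξ') = (1 : ℂ) := by
      rw [inner_self_eq_norm_sq_to_K, hn2]; simp
    have : ((‖ξ + a • ξ'‖ ^ 2 : ℝ) : ℂ) = ((2 + 2 * s : ℝ) : ℂ) := by
      have e : ((‖ξ + a • ξ'‖ ^ 2 : ℝ) : ℂ) = inner ℂ (ξ + a • ξ') (ξ + a • ξ') := by
        rw [inner_self_eq_norm_sq_to_K]; simp
      rw [e, inner_add_left, inner_add_right, inner_add_right, hin, hin', hξξ, hξξ']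
      push_cast; ring
    exact_mod_cast this
  set R : ℝ := Real.sqrt (2 + 2 * s) with hR
  have hRsq : R ^ 2 = 2 + 2 * s := Real.sq_sqrt (by linarith)
  have hRpos : 0 < R := Real.sqrt_pos.2 (by linarith)
  have hnR : ‖ξ + a • ξ'‖ = R := by
    rw [hR, ← np, Real.sqrt_sq (norm_nonneg _)]
  have hfin := hup (((R : ℂ)⁻¹) • (ξ + a • ξ')) ((4 * f - 2 * (1 - s)) / (4 * s)) (by
    rw [norm_smul, norm_inv, Complex.norm_real, Real.norm_of_nonneg hRpos.le, hnR,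
      inv_mul_cancel₀ hRpos.ne']) (by
    intro i
    rw [inner_smul_right, norm_mul, norm_inv, Complex.norm_real, Real.norm_of_nonneg hRpos.le,
      mul_pow, inv_pow, hRsq, div_le_iff₀ (by positivity)]
    have h3 := hm i
    have h4 : (2 + 2 * s)⁻¹ * ‖inner ℂ (x i) (ξ + a • ξ')‖ ^ 2 * (4 * s) =
        (2 * s * ‖inner ℂ (x i) (ξ + a • ξ')‖ ^ 2) / (1 + s) := by
      field_simp
      ring
    rw [h4, le_div_iff₀ (by linarith)]
    linarith)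
  rw [div_le_iff₀ (by positivity)] at hfin
  linarith

theorem dist_est {ξ ξ' δ : H} {τ : ℝ} (hξ : ‖ξ‖ = 1) (hξ' : ‖ξ'‖ = 1)
    {p p' : ℝ} (hp : inner ℂ δ ξ = (p : ℂ)) (hp' : inner ℂ δ ξ' = (p' : ℂ)) (hδ : ‖δ‖ = 1)
    (hp0 : 1 / 2 ≤ p) (hp0' : 0 ≤ p') (hτ : 1 - ‖inner ℂ ξ ξ'‖ ≤ τ) :
    ‖ξ' - ξ‖ ≤ 5 * Real.sqrt (2 * τ) := by
  obtain ⟨a, ha, hac⟩ := exists_phase (inner ℂ ξ ξ')
  -- `u = conj a`, `⟨ξ, ξ'⟩ = ‖c‖ u`
  set c : ℂ := inner ℂ ξ ξ' with hc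
  have hτ0 : 0 ≤ τ := by
    have : ‖c‖ ≤ 1 := by
      have := norm_inner_le_norm (𝕜 := ℂ) ξ ξ'
      rw [hξ, hξ', one_mul] at this
      exact this
    linarith
  have h1 : ‖a • ξ' - ξ‖ ^ 2 ≤ 2 * τ := by
    have e : ((‖a • ξ' - ξ‖ ^ 2 : ℝ) : ℂ) = ((2 - 2 * ‖c‖ : ℝ) : ℂ) := by
      have e1 : ((‖a • ξ' - ξ‖ ^ 2 : ℝ) : ℂ) = inner ℂ (a • ξ' - ξ) (a • ξ' - ξ) := by
        rw [inner_self_eq_norm_sq_to_K]; simp
      have e2 : inner ℂ ξ (a • ξ') = (‖c‖ : ℂ) := by rw [inner_smul_right, ← hc, hac]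
      have e3 : inner ℂ (a • ξ') ξ = (‖c‖ : ℂ) := by
        rw [← inner_conj_symm, e2, Complex.conj_ofReal]
      have e4 : inner ℂ ξ ξ = (1 : ℂ) := by rw [inner_self_eq_norm_sq_to_K, hξ]; simp
      have e5 : inner ℂ (a • ξ') (a • ξ') = (1 : ℂ) := by
        rw [inner_self_eq_norm_sq_to_K, norm_smul, ha, hξ']; simp
      rw [e1, inner_sub_left, inner_sub_right, inner_sub_right, e2, e3, e4, e5]
      push_cast; ring
    have e' : ‖a • ξ' - ξ‖ ^ 2 = 2 - 2 * ‖c‖ := by exact_mod_cast e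
    rw [e']
    linarith
  set t : ℝ := Real.sqrt (2 * τ) with ht
  have h2 : ‖a • ξ' - ξ‖ ≤ t := by
    rw [ht]
    exact Real.le_sqrt_of_sq_le h1
  have h3 : ‖a * (p' : ℂ) - p‖ ≤ t := by
    have e1 : a * (p' : ℂ) - p = inner ℂ δ (a • ξ' - ξ) := by
      rw [inner_sub_right, inner_smul_right, hp, hp']
    rw [e1]
    calc ‖inner ℂ δ (a • ξ' - ξ)‖ ≤ ‖δ‖ * ‖a • ξ' - ξ‖ := norm_inner_le_norm _ _
      _ ≤ t := by rw [hδ, one_mul]; exact h2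
  have h4 : |p' - p| ≤ t := by
    have e1 : ‖a * (p' : ℂ)‖ = p' := by
      rw [norm_mul, ha, one_mul, Complex.norm_real, Real.norm_of_nonneg hp0']
    have e2 : ‖(p : ℂ)‖ = p := by
      rw [Complex.norm_real, Real.norm_of_nonneg (by linarith)]
    calc |p' - p| = |‖a * (p' : ℂ)‖ - ‖(p : ℂ)‖| := by rw [e1, e2]
      _ ≤ ‖a * (p' : ℂ) - p‖ := abs_norm_sub_norm_le _ _
      _ ≤ t := h3
  have h5 : ‖a - 1‖ * p ≤ 2 * t := by
    have e1 : (a - 1) * (p : ℂ) = (a * p' - p) - a * ((p' : ℂ) - p) := by ring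
    have e2 : ‖a - 1‖ * p = ‖(a - 1) * (p : ℂ)‖ := by
      rw [norm_mul, Complex.norm_real, Real.norm_of_nonneg (by linarith)]
    have e3 : ‖a * ((p' : ℂ) - p)‖ ≤ t := by
      rw [norm_mul, ha, one_mul, ← Complex.ofReal_sub, Complex.norm_real]
      exact h4
    rw [e2, e1]
    calc ‖(a * (p' : ℂ) - p) - a * ((p' : ℂ) - p)‖ ≤ ‖a * (p' : ℂ) - p‖ + ‖a * ((p' : ℂ) - p)‖ :=
          norm_sub_le _ _
      _ ≤ 2 * t := by linarith
  have h6 : ‖a - 1‖ ≤ 4 * t := by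
    have := norm_nonneg (a - 1)
    nlinarith
  calc ‖ξ' - ξ‖ = ‖(a • ξ' - ξ) - (a - 1) • ξ'‖ := by
        congr 1
        rw [sub_smul, one_smul]
        abel
    _ ≤ ‖a • ξ' - ξ‖ + ‖(a - 1) • ξ'‖ := norm_sub_le _ _
    _ ≤ t + 4 * t := by
        rw [norm_smul, hξ', mul_one]
        linarith
    _ = 5 * t := by ring

/-- A unitary representation with an almost invariant line has an invariant line. -/
theorem exists_line {Γ : Type*} [Group Γ] [CompleteSpace H] (π : Γ →* (H ≃ₗᵢ[ℂ] H)) {δ : H}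
    (hδ : ‖δ‖ = 1) {F₀ : ℝ} (hF : 1 / 2 < F₀) (h : ∀ g, F₀ ≤ ‖inner ℂ (π g δ) δ‖ ^ 2) :
    ∃ ζ : H, ‖ζ‖ = 1 ∧ ∃ χ : Γ →* Circle, ∀ g, π g ζ = (χ g : ℂ) • ζ := by
  set A : Set ℝ := {f | ∃ ξ : H, ‖ξ‖ = 1 ∧ ∀ g, f ≤ ‖inner ℂ (π g δ) ξ‖ ^ 2} with hA
  have hx : ∀ g, ‖π g δ‖ = 1 := fun g => by rw [LinearIsometryEquiv.norm_map, hδ]
  have hbdd : BddAbove A := by
    refine ⟨1, ?_⟩
    rintro f ⟨ξ, hξ, hf⟩
    have h1 := norm_inner_le_norm (𝕜 := ℂ) (π 1 δ) ξ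
    rw [hx, hξ, one_mul] at h1
    have h2 := norm_nonneg (inner ℂ (π 1 δ) ξ)
    nlinarith [hf 1]
  have hne : A.Nonempty := ⟨F₀, δ, hδ, h⟩
  set S₀ : ℝ := sSup A with hS₀
  have hup : ∀ (m : H) (t : ℝ), ‖m‖ = 1 → (∀ g : Γ, t ≤ ‖inner ℂ (π g δ) m‖ ^ 2) → t ≤ S₀ :=
    fun m t hm ht => le_csSup hbdd ⟨m, hm, ht⟩
  have hSF : F₀ ≤ S₀ := hup δ F₀ hδ h
  have hS2 : 0 < 4 * S₀ - 2 := by linarith
  -- near maximisers
  have hex : ∀ n : ℕ, ∃ ξ : H, ‖ξ‖ = 1 ∧ (∃ p : ℝ, inner ℂ δ ξ = (p : ℂ) ∧ 0 ≤ p) ∧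
      ∀ g, S₀ - (2 * S₀ - 1) / (4 * (n + 1)) ≤ ‖inner ℂ (π g δ) ξ‖ ^ 2 := by
    intro n
    have hlt : S₀ - (2 * S₀ - 1) / (4 * (n + 1)) < S₀ := by
      have : 0 < (2 * S₀ - 1) / (4 * ((n : ℝ) + 1)) := div_pos (by linarith) (by positivity)
      linarith
    obtain ⟨f, ⟨ξ, hξ, hf⟩, hlt2⟩ := exists_lt_of_lt_csSup hne hlt
    obtain ⟨a, ha, hac⟩ := exists_phase (inner ℂ δ ξ)
    refine ⟨a • ξ, by rw [norm_smul, ha, hξ, one_mul], ⟨‖inner ℂ δ ξ‖, by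
      rw [inner_smul_right, hac], norm_nonneg _⟩, ?_⟩
    intro g
    rw [inner_smul_right, norm_mul, ha, one_mul]
    exact hlt2.le.trans (hf g)
  choose ξ hξn hξp hξf using hex
  choose p hp hp0 using hξp
  have hfhalf : ∀ n : ℕ, 1 / 2 < S₀ - (2 * S₀ - 1) / (4 * ((n : ℝ) + 1)) := by
    intro n
    have h1 : (2 * S₀ - 1) / (4 * ((n : ℝ) + 1)) ≤ (2 * S₀ - 1) / 4 := by
      apply div_le_div_of_nonneg_left (by linarith) (by norm_num)
      have : (0 : ℝ) ≤ n := Nat.cast_nonneg n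
      linarith
    linarith
  have hphalf : ∀ n, 1 / 2 ≤ p n := by
    intro n
    have h1 := (hfhalf n).le.trans (hξf n 1)
    rw [map_one, LinearIsometryEquiv.coe_one, id_eq, hp n, Complex.norm_real,
      Real.norm_of_nonneg (hp0 n)] at h1
    nlinarith [hp0 n]
  have hkey : ∀ n m : ℕ, n ≤ m → 1 - ‖inner ℂ (ξ n) (ξ m)‖ ≤ 1 / (2 * ((n : ℝ) + 1)) := by
    intro n m hnm
    have hmono : (2 * S₀ - 1) / (4 * ((m : ℝ) + 1)) ≤ (2 * S₀ - 1) / (4 * ((n : ℝ) + 1)) := by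
      apply div_le_div_of_nonneg_left (by linarith) (by positivity)
      have : (n : ℝ) ≤ m := by exact_mod_cast hnm
      linarith
    have h1 := key_est (x := fun g => π g δ) hx hup (hfhalf n) (hξn n) (hξn m) (hξf n)
      (fun g => le_trans (by linarith) (hξf m g))
    have h2 : 4 * (S₀ - (S₀ - (2 * S₀ - 1) / (4 * ((n : ℝ) + 1)))) =
        (1 / (2 * ((n : ℝ) + 1))) * (4 * S₀ - 2) := by
      field_simp
      ring
    rw [h2] at h1
    exact le_of_mul_le_mul_right h1 hS2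
  have hcauchy : CauchySeq ξ := by
    rw [Metric.cauchySeq_iff']
    intro ε hε
    obtain ⟨N, hN⟩ := exists_nat_gt (25 / ε ^ 2)
    refine ⟨N, fun n hn => ?_⟩
    have h1 := dist_est (hξn N) (hξn n) (hp N) (hp n) hδ (hphalf N) (hp0 n) (hkey N n hn)
    rw [dist_eq_norm]
    refine lt_of_le_of_lt h1 ?_
    have h2 : 2 * (1 / (2 * ((N : ℝ) + 1))) < (ε / 5) ^ 2 := by
      have e1 : 2 * (1 / (2 * ((N : ℝ) + 1))) = 1 / ((N : ℝ) + 1) := by field_simp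
      rw [e1, div_lt_iff₀ (by positivity)]
      rw [div_lt_iff₀ (by positivity)] at hN
      nlinarith [sq_nonneg ε]
    have h3 : Real.sqrt (2 * (1 / (2 * ((N : ℝ) + 1)))) < ε / 5 := by
      rw [Real.sqrt_lt' (by positivity)]
      exact h2
    linarith
  obtain ⟨ζ, hζ⟩ := cauchySeq_tendsto_of_complete hcauchy
  have hζn : ‖ζ‖ = 1 := by
    have h1 := hζ.norm
    have h2 : (fun n => ‖ξ n‖) = fun _ => (1 : ℝ) := funext hξn
    rw [h2] at h1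
    exact (tendsto_nhds_unique h1 tendsto_const_nhds)
  have hζf : ∀ g, S₀ ≤ ‖inner ℂ (π g δ) ζ‖ ^ 2 := by
    intro g
    have h1 : Filter.Tendsto (fun n : ℕ => S₀ - (2 * S₀ - 1) / (4 * ((n : ℝ) + 1))) Filter.atTop
        (nhds (S₀ - 0)) := by
      apply Filter.Tendsto.sub tendsto_const_nhds
      have h2 : Filter.Tendsto (fun n : ℕ => ((2 * S₀ - 1) / 4) * (1 / ((n : ℝ) + 1)))
          Filter.atTop (nhds (((2 * S₀ - 1) / 4) * 0)) :=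
        tendsto_one_div_add_atTop_nhds_zero_nat.const_mul _
      rw [mul_zero] at h2
      convert! h2 using 2 with n
      field_simp
    rw [sub_zero] at h1
    have h2 : Filter.Tendsto (fun n => ‖inner ℂ (π g δ) (ξ n)‖ ^ 2) Filter.atTop
        (nhds (‖inner ℂ (π g δ) ζ‖ ^ 2)) :=
      ((tendsto_const_nhds.inner hζ).norm).pow 2
    exact le_of_tendsto_of_tendsto' h1 h2 (fun n => hξf n g)
  have huniq : ∀ η : H, ‖η‖ = 1 → (∀ g, S₀ ≤ ‖inner ℂ (π g δ) η‖ ^ 2) →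
      ∃ a : ℂ, ‖a‖ = 1 ∧ η = a • ζ := by
    intro η hη hηf
    have h1 := key_est (x := fun g => π g δ) hx hup (by linarith : 1 / 2 < S₀) hζn hη hζf hηf
    have h2 : 1 ≤ ‖inner ℂ ζ η‖ := by
      by_contra hcon
      push Not at hcon
      have : 0 < (1 - ‖inner ℂ ζ η‖) * (4 * S₀ - 2) := mul_pos (by linarith) hS2
      linarith
    obtain ⟨a, ha, hac⟩ := exists_phase (inner ℂ ζ η)
    have ha0 : a ≠ 0 := by
      intro h0; rw [h0, norm_zero] at ha; exact zero_ne_one ha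
    have h3 : ‖a • η - ζ‖ ^ 2 ≤ 0 := by
      have e : ((‖a • η - ζ‖ ^ 2 : ℝ) : ℂ) = ((2 - 2 * ‖inner ℂ ζ η‖ : ℝ) : ℂ) := by
        have e1 : ((‖a • η - ζ‖ ^ 2 : ℝ) : ℂ) = inner ℂ (a • η - ζ) (a • η - ζ) := by
          rw [inner_self_eq_norm_sq_to_K]; simp
        have e2 : inner ℂ ζ (a • η) = (‖inner ℂ ζ η‖ : ℂ) := by rw [inner_smul_right, hac]
        have e3 : inner ℂ (a • η) ζ = (‖inner ℂ ζ η‖ : ℂ) := by
          rw [← inner_conj_symm, e2, Complex.conj_ofReal]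
        have e4 : inner ℂ ζ ζ = (1 : ℂ) := by rw [inner_self_eq_norm_sq_to_K, hζn]; simp
        have e5 : inner ℂ (a • η) (a • η) = (1 : ℂ) := by
          rw [inner_self_eq_norm_sq_to_K, norm_smul, ha, hη]; simp
        rw [e1, inner_sub_left, inner_sub_right, inner_sub_right, e2, e3, e4, e5]
        push_cast; ring
      have e' : ‖a • η - ζ‖ ^ 2 = 2 - 2 * ‖inner ℂ ζ η‖ := by exact_mod_cast e
      rw [e']
      linarith
    have h4 : a • η = ζ := by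
      have : ‖a • η - ζ‖ = 0 := by
        have := norm_nonneg (a • η - ζ)
        nlinarith
      rwa [norm_eq_zero, sub_eq_zero] at this
    refine ⟨a⁻¹, by rw [norm_inv, ha, inv_one], ?_⟩
    rw [← h4, smul_smul, inv_mul_cancel₀ ha0, one_smul]
  have hinv : ∀ k : Γ, ∃ a : ℂ, ‖a‖ = 1 ∧ π k ζ = a • ζ := by
    intro k
    apply huniq
    · rw [LinearIsometryEquiv.norm_map, hζn]
    · intro g
      have h1 := hζf (k⁻¹ * g)
      have h2 : inner ℂ (π g δ) (π k ζ) = inner ℂ (π (k⁻¹ * g) δ) ζ := by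
        rw [← LinearIsometryEquiv.inner_map_map (π k) (π (k⁻¹ * g) δ) ζ]
        congr 1
        change π g δ = (π k * π (k⁻¹ * g)) δ
        rw [← map_mul, mul_inv_cancel_left]
      rw [h2]
      exact h1
  choose a ha hπ using hinv
  have hζ0 : ζ ≠ 0 := by
    intro h0; rw [h0, norm_zero] at hζn; exact zero_ne_one hζn
  refine ⟨ζ, hζn, ?_⟩
  refine ⟨{ toFun := fun k => ⟨a k, mem_sphere_zero_iff_norm.2 (ha k)⟩
            map_one' := ?_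
            map_mul' := ?_ }, fun g => hπ g⟩
  · apply Subtype.ext
    have h1 := hπ 1
    rw [map_one, LinearIsometryEquiv.coe_one, id_eq] at h1
    have h2 : (a 1 - 1) • ζ = 0 := by rw [sub_smul, one_smul, ← h1, sub_self]
    rcases smul_eq_zero.1 h2 with h3 | h3
    · exact sub_eq_zero.1 h3
    · exact absurd h3 hζ0
  · intro k l
    apply Subtype.ext
    have h1 := hπ (k * l)
    rw [map_mul] at h1
    change π k (π l ζ) = _ at h1
    rw [hπ l, map_smul, hπ k, smul_smul] at h1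
    have h2 : (a (k * l) - a k * a l) • ζ = 0 := by
      rw [sub_smul, ← h1, mul_comm, sub_self]
    rcases smul_eq_zero.1 h2 with h3 | h3
    · exact sub_eq_zero.1 h3
    · exact absurd h3 hζ0

end Circum

end Pool.Agent.Helper84.GVN
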