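import Pool.Agent.Helper84.GVN.Comul
import Pool.Agent.Helper84.GVN.Kazhdan

/-!
Local rigidity of homomorphisms from a group with a Kazhdan pair to the unitary group of a group
von Neumann algebra.
-/

open scoped ENNReal ComplexConjugate

namespace Pool.Agent.Helper84.GVN

section Height

variable {I : Type*}

theorem sum_sq_compl [DecidableEq I] (c : L2 I) (hc : ‖c‖ = 1) (h : I) (F : Finset I) (hF : h ∈ F) :
    ∑ x ∈ F.erase h, ‖c x‖ ^ 2 ≤ 1 - ‖c h‖ ^ 2 := by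
  classical
  have h1 : ∑ x ∈ F, ‖c x‖ ^ 2 ≤ 1 := by
    have := (hasSum_sq c)
    rw [hc, one_pow] at this
    exact sum_le_hasSum F (fun i _ => by positivity) this
  rw [← Finset.add_sum_erase F _ hF] at h1
  linarith

/-- The third order sum of a unit vector with one large coordinate is large. -/
theorem s3_lower {G : Type*} (c : L2 G) (hc : ‖c‖ = 1) {δ : ℝ} (hδ : 0 ≤ δ) (hδ1 : δ ≤ 1) (h : G)
    (hh : 1 - δ ≤ ‖c h‖) : 1 - 5 * δ ≤ ‖∑' x, c x * conj (c x) ^ 2‖ := by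
  classical
  have hc1 : ∀ x, ‖c x‖ ≤ 1 := fun x => by rw [← hc]; exact norm_apply_le c x
  have hs := (summable_s3 c).hasSum
  -- finite estimate
  have hfin : ∀ F : Finset G, h ∈ F → 1 - 5 * δ ≤ ‖∑ x ∈ F, c x * conj (c x) ^ 2‖ := by
    intro F hF
    rw [← Finset.add_sum_erase F _ hF]
    have h1 : ‖∑ x ∈ F.erase h, c x * conj (c x) ^ 2‖ ≤ 1 - ‖c h‖ ^ 2 := by
      calc ‖∑ x ∈ F.erase h, c x * conj (c x) ^ 2‖ ≤ ∑ x ∈ F.erase h, ‖c x * conj (c x) ^ 2‖ :=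
            norm_sum_le _ _
        _ ≤ ∑ x ∈ F.erase h, ‖c x‖ ^ 2 := by
            apply Finset.sum_le_sum
            intro x _
            rw [norm_mul, norm_pow, RCLike.norm_conj]
            have := hc1 x
            nlinarith [sq_nonneg ‖c x‖]
        _ ≤ _ := sum_sq_compl c hc h F hF
    have h2 : ‖c h * conj (c h) ^ 2‖ = ‖c h‖ ^ 3 := by
      rw [norm_mul, norm_pow, RCLike.norm_conj]; ring
    have h3 : ‖c h * conj (c h) ^ 2‖ - ‖∑ x ∈ F.erase h, c x * conj (c x) ^ 2‖ ≤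
        ‖c h * conj (c h) ^ 2 + ∑ x ∈ F.erase h, c x * conj (c x) ^ 2‖ := by
      have := norm_sub_norm_le (c h * conj (c h) ^ 2) (-(∑ x ∈ F.erase h, c x * conj (c x) ^ 2))
      rw [norm_neg, sub_neg_eq_add] at this
      exact this
    have h4 : 1 - 5 * δ ≤ ‖c h‖ ^ 3 - (1 - ‖c h‖ ^ 2) := by
      have hm := hc1 h
      have h0 : 0 ≤ 1 - δ := by linarith
      have e1 : (1 - δ) ^ 2 ≤ ‖c h‖ ^ 2 := pow_le_pow_left₀ h0 hh 2
      have e2 : (1 - δ) ^ 3 ≤ ‖c h‖ ^ 3 := pow_le_pow_left₀ h0 hh 3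
      nlinarith [mul_nonneg hδ hδ, mul_nonneg (mul_nonneg hδ hδ) h0, mul_nonneg hδ h0]
    rw [h2] at h3
    linarith
  have hev : ∀ᶠ F : Finset G in Filter.atTop, 1 - 5 * δ ≤ ‖∑ x ∈ F, c x * conj (c x) ^ 2‖ := by
    filter_upwards [Filter.eventually_ge_atTop {h}] with F hF
    exact hfin F (hF (Finset.mem_singleton_self h))
  exact ge_of_tendsto hs.norm hev

/-- If the third order sum is large, some coordinate is large. -/
theorem exists_large {G : Type*} (c : L2 G) (hc : ‖c‖ = 1) {m : ℝ}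
    (hs : m < ‖∑' x, c x * conj (c x) ^ 2‖) : ∃ h, m < ‖c h‖ := by
  by_contra hcon
  push Not at hcon
  have h1 : ‖∑' x, c x * conj (c x) ^ 2‖ ≤ m := by
    have e1 : HasSum (fun x => m * ‖c x‖ ^ 2) (m * 1) := by
      have := (hasSum_sq c).mul_left m
      rw [hc, one_pow] at this
      exact this
    rw [mul_one] at e1
    exact tsum_of_norm_bounded e1 (fun x => by
      rw [norm_mul, norm_pow, RCLike.norm_conj]
      exact mul_le_mul_of_nonneg_right (hcon x) (by positivity))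
  linarith

end Height

section Rigid

variable {Γ Λ : Type} [Group Γ] [Group Λ]

/-- The representation of `Γ` built from a homomorphism to the unitary group. -/
noncomputable def bigRep (v : Γ →* (L2 Λ ≃ₗᵢ[ℂ] L2 Λ)) (hv : ∀ g, InL (v g)) :
    Γ →* (L2 ((Λ × Λ) × (Λ × Λ)) ≃ₗᵢ[ℂ] L2 ((Λ × Λ) × (Λ × Λ))) where
  toFun g := piU (dbl (v g))
  map_one' := by rw [map_one, dbl_one, piU_one]
  map_mul' g h := by rw [map_mul, dbl_mul, piU_mul (hv g).dbl (hv h).dbl]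

theorem bigRep_norm (v : Γ →* (L2 Λ ≃ₗᵢ[ℂ] L2 Λ)) (hv : ∀ g, InL (v g)) (g : Γ) :
    ‖bigRep v hv g (dl 1) - dl 1‖ ^ 2 = 2 - 2 * ‖s3 (cf (v g))‖ ^ 2 := by
  have h1 : inner ℂ (dl 1) (bigRep v hv g (dl 1)) = ((‖s3 (cf (v g))‖ ^ 2 : ℝ) : ℂ) := by
    rw [inner_dl_left]
    change piU (dbl (v g)) (dl 1) 1 = _
    rw [piU_coef (hv g).dbl.commR, s3_dbl]
  have h2 : inner ℂ (bigRep v hv g (dl 1)) (dl 1) = ((‖s3 (cf (v g))‖ ^ 2 : ℝ) : ℂ) := by
    rw [← inner_conj_symm, h1, Complex.conj_ofReal]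
  have h3 : inner ℂ (dl 1 : L2 ((Λ × Λ) × (Λ × Λ))) (dl 1) = 1 := by
    rw [inner_self_eq_norm_sq_to_K, norm_dl]; simp
  have e : ((‖bigRep v hv g (dl 1) - dl 1‖ ^ 2 : ℝ) : ℂ) =
      ((2 - 2 * ‖s3 (cf (v g))‖ ^ 2 : ℝ) : ℂ) := by
    have e1 : ((‖bigRep v hv g (dl 1) - dl 1‖ ^ 2 : ℝ) : ℂ) =
        inner ℂ (bigRep v hv g (dl 1) - dl 1) (bigRep v hv g (dl 1) - dl 1) := by
      rw [inner_self_eq_norm_sq_to_K]; simp
    rw [e1, inner_sub_left, inner_sub_right, inner_sub_right, LinearIsometryEquiv.inner_map_map,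
      h1, h2, h3]
    push_cast; ring
  exact_mod_cast e

/-- Step 1: all unitaries have a large Fourier coefficient. -/
theorem all_large {S : Set Γ} {κ : ℝ} (hK : IsKazhdanPair Γ S κ)
    (v : Γ →* (L2 Λ ≃ₗᵢ[ℂ] L2 Λ)) (hv : ∀ g, InL (v g))
    (hS : ∀ s ∈ S, ∃ h, 1 - κ ^ 2 / 320 ≤ ‖cf (v s) h‖) (g : Γ) :
    ∃ h, 7 / 8 < ‖cf (v g) h‖ := by
  have hκ := hK.1
  have h1 : ∀ s ∈ S, ‖bigRep v hv s (dl 1) - dl 1‖ ≤ κ / 4 := by
    intro s hs
    obtain ⟨h, hh⟩ := hS s hs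
    apply le_of_sq_le_sq _ (by positivity)
    rw [bigRep_norm]
    by_cases hbig : κ ^ 2 / 320 ≤ 1 / 5
    · have h2 := s3_lower (cf (v s)) (norm_cf _) (by positivity) (by linarith) h hh
      change _ ≤ ‖s3 (cf (v s))‖ at h2
      have h3 : 0 ≤ 1 - 5 * (κ ^ 2 / 320) := by linarith
      have h4 := pow_le_pow_left₀ h3 h2 2
      nlinarith [sq_nonneg (κ ^ 2)]
    · push Not at hbig
      have : 0 ≤ ‖s3 (cf (v s))‖ ^ 2 := by positivity
      nlinarith
  have h2 := kazhdan_close hK (bigRep v hv) (dl 1) (by positivity) h1 g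
  have h3 : 2 * (κ / 4) / κ = 1 / 2 := by field_simp; norm_num
  rw [h3] at h2
  have h4 := bigRep_norm v hv g
  have h5 : ‖bigRep v hv g (dl 1) - dl 1‖ ^ 2 ≤ (1 / 2) ^ 2 :=
    pow_le_pow_left₀ (norm_nonneg _) h2 2
  rw [h4] at h5
  have h6 : 7 / 8 ≤ ‖s3 (cf (v g))‖ ^ 2 := by linarith
  apply exists_large (cf (v g)) (norm_cf _)
  change 7 / 8 < ‖s3 (cf (v g))‖
  by_contra hcon
  push Not at hcon
  nlinarith [norm_nonneg (s3 (cf (v g)))]

theorem two_coord (c : L2 Λ) (hc : ‖c‖ = 1) {h k : Λ} (hne : h ≠ k) :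
    ‖c h‖ ^ 2 + ‖c k‖ ^ 2 ≤ 1 := by
  classical
  have h1 : ∑ x ∈ ({h, k} : Finset Λ), ‖c x‖ ^ 2 ≤ 1 := by
    have := (hasSum_sq c)
    rw [hc, one_pow] at this
    exact sum_le_hasSum _ (fun i _ => by positivity) this
  rwa [Finset.sum_pair hne] at h1

/-- Distance of a unit vector to a multiple of a basis vector with large coordinate. -/
theorem dist_basis (c : L2 Λ) (hc : ‖c‖ = 1) (h : Λ) :
    ∃ a : ℂ, ‖a‖ = 1 ∧ ‖c - a • dl h‖ ^ 2 = 2 - 2 * ‖c h‖ := by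
  obtain ⟨a, ha, hac⟩ := exists_phase (c h)
  have haa : a * conj a = 1 := by
    rw [Complex.mul_conj, Complex.normSq_eq_norm_sq, ha]; simp
  refine ⟨conj a, by rw [RCLike.norm_conj, ha], ?_⟩
  have e : ((‖c - conj a • dl h‖ ^ 2 : ℝ) : ℂ) = ((2 - 2 * ‖c h‖ : ℝ) : ℂ) := by
    have e1 : ((‖c - conj a • dl h‖ ^ 2 : ℝ) : ℂ) =
        inner ℂ (c - conj a • dl h) (c - conj a • dl h) := by
      rw [inner_self_eq_norm_sq_to_K]; simp
    have e2 : inner ℂ c c = (1 : ℂ) := by rw [inner_self_eq_norm_sq_to_K, hc]; simp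
    have e3 : inner ℂ (dl h : L2 Λ) (dl h) = (1 : ℂ) := by
      rw [inner_self_eq_norm_sq_to_K, norm_dl]; simp
    have e4 : conj (c h) * conj a = (‖c h‖ : ℂ) := by
      rw [← map_mul, mul_comm, hac, Complex.conj_ofReal]
    rw [e1, inner_sub_left, inner_sub_right, inner_sub_right, inner_smul_left, inner_smul_left,
      inner_smul_right, inner_smul_right, e2, e3, inner_dl_left, inner_dl_right,
      Complex.conj_conj, hac]
    rw [mul_comm (conj a) (conj (c h)), e4]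
    push_cast
    linear_combination haa
  exact_mod_cast e

/-- Step 2: approximate multiplicativity. -/
theorem prod_large {v w : L2 Λ ≃ₗᵢ[ℂ] L2 Λ} (hv : CommR v) {h k : Λ}
    (h1 : 7 / 8 < ‖cf v h‖) (h2 : 7 / 8 < ‖cf w k‖) : 1 / 2 ≤ ‖cf (v * w) (h * k)‖ := by
  obtain ⟨a, ha, hav⟩ := dist_basis (cf v) (norm_cf v) h
  obtain ⟨b, hb, hbw⟩ := dist_basis (cf w) (norm_cf w) k
  have d1 : ‖cf v - a • dl h‖ ≤ 1 / 2 := by
    apply le_of_sq_le_sq _ (by norm_num)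
    rw [hav]; linarith
  have d2 : ‖cf w - b • dl k‖ ≤ 1 / 2 := by
    apply le_of_sq_le_sq _ (by norm_num)
    rw [hbw]; linarith
  have e1 : cf (v * w) = v (cf w) := rfl
  have e2 : v (dl k) = rhoU k⁻¹ (cf v) := by
    have := hv k⁻¹ (dl 1)
    rw [rhoU_dl, inv_inv, one_mul] at this
    exact this
  have e3 : rhoU k⁻¹ (dl h : L2 Λ) = dl (h * k) := by rw [rhoU_dl, inv_inv]
  have e4 : cf (v * w) - (b * a) • dl (h * k) =
      v (cf w - b • dl k) + b • rhoU k⁻¹ (cf v - a • dl h) := by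
    rw [e1, map_sub, map_sub, map_smul, map_smul, e2, e3, smul_sub, smul_smul]
    abel
  have d3 : ‖cf (v * w) - (b * a) • dl (h * k)‖ ≤ 1 := by
    rw [e4]
    calc _ ≤ ‖v (cf w - b • dl k)‖ + ‖b • rhoU k⁻¹ (cf v - a • dl h)‖ := norm_add_le _ _
      _ ≤ 1 / 2 + 1 / 2 := by
          rw [LinearIsometryEquiv.norm_map, norm_smul, hb, one_mul, LinearIsometryEquiv.norm_map]
          exact add_le_add d2 d1
      _ = 1 := by norm_num
  have d4 : ‖cf (v * w) - (b * a) • dl (h * k)‖ ^ 2 ≤ 1 := by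
    nlinarith [norm_nonneg (cf (v * w) - (b * a) • dl (h * k))]
  have hba : ‖b * a‖ = 1 := by rw [norm_mul, ha, hb, one_mul]
  have e5 : ‖cf (v * w) - (b * a) • dl (h * k)‖ ^ 2 =
      2 - 2 * (conj (b * a) * (cf (v * w) (h * k))).re := by
    rw [@norm_sub_sq ℂ, norm_cf, norm_smul, hba, norm_dl, inner_smul_right, inner_dl_right]
    have h5 : ∀ z w : ℂ, RCLike.re (z * conj w) = (conj z * w).re := by
      intro z w
      simp [Complex.mul_re]
    have : RCLike.re (b * a * conj (cf (v * w) (h * k))) =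
        (conj (b * a) * (cf (v * w) (h * k))).re := h5 _ _
    rw [this]
    ring
  have e6 : (conj (b * a) * (cf (v * w) (h * k))).re ≤ ‖cf (v * w) (h * k)‖ := by
    calc _ ≤ ‖conj (b * a) * (cf (v * w) (h * k))‖ := Complex.re_le_norm _
      _ = _ := by rw [norm_mul, RCLike.norm_conj, hba, one_mul]
  linarith

/-- Steps 1-3: the homomorphism, the character and the intertwining vector. -/
theorem exists_intertwiner {S : Set Γ} {κ : ℝ} (hK : IsKazhdanPair Γ S κ)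
    (v : Γ →* (L2 Λ ≃ₗᵢ[ℂ] L2 Λ)) (hv : ∀ g, InL (v g))
    (hS : ∀ s ∈ S, ∃ h, 1 - κ ^ 2 / 320 ≤ ‖cf (v s) h‖) :
    ∃ (φ : Γ →* Λ) (χ : Γ →* Circle) (ζ : L2 Λ), ‖ζ‖ = 1 ∧
      (∀ g, 7 / 8 < ‖cf (v g) (φ g)‖) ∧
      ∀ g, v g (rhoU (φ g) ζ) = (χ g : ℂ) • ζ := by
  have hL := all_large hK v hv hS
  choose φ hφ using hL
  have hmul : ∀ g h, φ (g * h) = φ g * φ h := by
    intro g h
    by_contra hne
    have h1 := prod_large (hv g).commR (hφ g) (hφ h)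
    have h2 := hφ (g * h)
    rw [map_mul] at h2
    have h3 := two_coord (cf (v g * v h)) (norm_cf _) hne
    nlinarith
  have hone : φ 1 = 1 := by
    have := hmul 1 1
    rw [one_mul] at this
    exact (mul_eq_left.1 this.symm)
  let φ' : Γ →* Λ := { toFun := φ, map_one' := hone, map_mul' := hmul }
  let σ : Γ →* (L2 Λ ≃ₗᵢ[ℂ] L2 Λ) :=
    { toFun := fun g => v g * rhoU (φ g)
      map_one' := by rw [map_one, hone, rhoU_one, one_mul]
      map_mul' := by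
        intro g h
        ext f : 1
        rw [map_mul, hmul, rhoU_mul]
        simp only [LinearIsometryEquiv.coe_mul, Function.comp_apply]
        rw [(hv h).commR (φ g)] }
  have hσ : ∀ g, inner ℂ (dl 1) (σ g (dl 1)) = cf (v g) (φ g) := by
    intro g
    rw [inner_dl_left]
    change v g (rhoU (φ g) (dl 1)) 1 = _
    rw [rhoU_dl, one_mul, (hv g).commR.apply_dl]
    simp
  obtain ⟨ζ, hζ, χ, hχ⟩ := exists_line σ (norm_dl (1 : Λ)) (F₀ := 49 / 64) (by norm_num) (by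
    intro g
    rw [norm_inner_symm, hσ g]
    nlinarith [hφ g])
  exact ⟨φ', χ, ζ, hζ, hφ, fun g => hχ g⟩

end Rigid

end Pool.Agent.Helper84.GVN
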